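import Pool.Agent.H96.TT.Stm
import Pool.Graph.R_seed8.H239R2.Cover.PlanarP1
import Pool.Graph.R_seed8.H239R2.Cover.PlanarP2
import Pool.Graph.R_seed8.TH486.LAC.Horn

/-!
# Tree thickness: a planar triangle-free graph is the union of two forests
-/

set_option autoImplicit false

namespace Pool.Agent.H96.TT

open SimpleGraph Finset Module Pool.Agent.TH486.LAC Pool.Agent.H239R2.Planar

section

variable {V : Type}

/-- The vector of an edge, with a chosen orientation. -/
noncomputable def arb1_vec (V : Type) (e : Sym2 V) : V → ℚ :=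
  open Classical in Pi.single (Quot.out e).1 1 - Pi.single (Quot.out e).2 1

theorem arb1_out (e : Sym2 V) : s((Quot.out e).1, (Quot.out e).2) = e := Quot.out_eq e

open Classical in
theorem arb1_vec_mem (u v : V) : arb1_vec V s(u, v) = Pi.single u 1 - Pi.single v 1 ∨
    arb1_vec V s(u, v) = - (Pi.single u 1 - Pi.single v 1) := by
  have h := arb1_out s(u, v)
  rw [Sym2.eq_iff] at h
  rcases h with ⟨h1, h2⟩ | ⟨h1, h2⟩
  · left; unfold arb1_vec; rw [h1, h2]
  · right; unfold arb1_vec; rw [h1, h2]; rw [neg_sub]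

open Classical in
theorem arb1_single_inj {a b c d : V} (hab : a ≠ b)
    (h : (Pi.single a 1 - Pi.single b 1 : V → ℚ) = Pi.single c 1 - Pi.single d 1) :
    a = c ∧ b = d := by
  have h1 := congrFun h a
  have h2 := congrFun h b
  simp only [Pi.sub_apply, Pi.single_apply] at h1 h2
  constructor
  · by_contra hac
    simp only [if_true, hab, hac, if_false] at h1
    split_ifs at h1 <;> norm_num at h1
  · by_contra hbd
    simp only [if_true, hab.symm, hbd, if_false] at h2
    split_ifs at h2 <;> norm_num at h2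

theorem arb1_vec_inj {e e' : Sym2 V} (he : ¬ e.IsDiag) (h : arb1_vec V e = arb1_vec V e') :
    e = e' := by
  have h1 : (Quot.out e).1 ≠ (Quot.out e).2 := by
    intro h1
    apply he
    rw [← arb1_out e]
    exact h1
  obtain ⟨h2, h3⟩ := arb1_single_inj h1 h
  rw [← arb1_out e, ← arb1_out e', h2, h3]

open Classical in
/-- The difference of the ends of a walk is in the span of the vectors of the edges. -/
theorem arb1_walk (H : SimpleGraph V) (S : Submodule ℚ (V → ℚ))
    (hS : ∀ e ∈ H.edgeSet, arb1_vec V e ∈ S) {a b : V} (hab : H.Reachable a b) :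
    (Pi.single a 1 - Pi.single b 1 : V → ℚ) ∈ S := by
  obtain ⟨w⟩ := hab
  induction w with
  | nil => simp
  | @cons x y z hxy w ih =>
    have h1 : (Pi.single x 1 - Pi.single y 1 : V → ℚ) ∈ S := by
      have h2 := hS s(x, y) hxy
      rcases arb1_vec_mem x y with h3 | h3
      · rwa [h3] at h2
      · rw [h3] at h2
        exact (Submodule.neg_mem_iff _).1 h2
    have h2 := Submodule.add_mem _ h1 ih
    rwa [sub_add_sub_cancel] at h2

theorem arb1_egirth {G : SimpleGraph V} (hG : G.CliqueFree 3) :
    ((2 * 2 : ℕ) : ℕ∞) ≤ G.egirth := by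
  rw [le_egirth]
  intro a w hw
  have h3 := hw.three_le_length
  have h4 : w.length ≠ 3 := by
    intro h
    obtain ⟨s, hs⟩ := is3Clique_iff_exists_cycle_length_three.2 ⟨a, w, hw, h⟩
    exact hG s hs
  have : 4 ≤ w.length := by omega
  exact_mod_cast this

theorem arb1_notMem_span {K W : Type} [Field K] [AddCommGroup W] [Module K W]
    [FiniteDimensional K W] [DecidableEq W] {Y : Finset W} (h : Ind K Y) {x : W} (hx : x ∈ Y) :
    x ∉ Submodule.span K ((Y.erase x : Finset W) : Set W) := by
  intro hmem
  have h1 := h.erase hx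
  unfold Ind at h h1
  have h2 : Submodule.span K (Y : Set W) = Submodule.span K ((Y.erase x : Finset W) : Set W) := by
    conv_lhs => rw [← Finset.insert_erase hx, Finset.coe_insert]
    exact Submodule.span_insert_eq_span hmem
  rw [h2, h1] at h
  have := card_erase_add_one hx
  omega

end

open Classical in
theorem t_arb1 : S_arb1 := by
  intro V _ G hG hpl
  have hsp : ∀ A : Finset (Sym2 V), (A : Set (Sym2 V)) ⊆ G.edgeSet → A.card ≤ 2 * rk A := by
    intro A hA
    have h : 2 * A.card ≤ 2 * rk A + A.card := by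
      rcases hpl with h | h
      · exact planar_sparse G h 2 (arb1_egirth hG) A hA
      · exact line_sparse G h 2 (arb1_egirth hG) A hA
    omega
  set T : Finset (V → ℚ) := G.edgeFinset.image (arb1_vec V) with hT
  have hcard : ∀ A ⊆ T, A.card ≤ 2 * finrank ℚ ↥(Submodule.span ℚ (A : Set (V → ℚ))) := by
    intro A hA
    set A' := G.edgeFinset.filter (fun e => arb1_vec V e ∈ A) with hA'
    have h1 : A ⊆ A'.image (arb1_vec V) := by
      intro x hx
      obtain ⟨e, he, rfl⟩ := Finset.mem_image.1 (hA hx)
      exact Finset.mem_image_of_mem _ (Finset.mem_filter.2 ⟨he, hx⟩)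
    have h2 : A.card ≤ A'.card := (Finset.card_le_card h1).trans Finset.card_image_le
    have h3 := hsp A' (by
      intro e he
      have := (Finset.mem_filter.1 (Finset.mem_coe.1 he)).1
      exact SimpleGraph.mem_edgeFinset.1 this)
    have h4 : rk A' ≤ finrank ℚ ↥(Submodule.span ℚ (A : Set (V → ℚ))) := by
      unfold rk
      apply Submodule.finrank_mono
      rw [Submodule.span_le]
      rintro x ⟨u, v, huv, rfl⟩
      have h5 := (Finset.mem_filter.1 huv).2
      have h6 : arb1_vec V s(u, v) ∈ Submodule.span ℚ (A : Set (V → ℚ)) :=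
        Submodule.subset_span h5
      rcases arb1_vec_mem u v with h7 | h7
      · rwa [h7] at h6
      · rw [h7] at h6
        exact (Submodule.neg_mem_iff _).1 h6
    omega
  obtain ⟨c, hc, -⟩ := equitable (K := ℚ) (l := 2) (by norm_num) hcard
  set F : Fin 2 → SimpleGraph V := fun j =>
    SimpleGraph.fromEdgeSet {e | e ∈ G.edgeSet ∧ c (arb1_vec V e) = j} with hF
  have hFe : ∀ j, (F j).edgeSet = {e | e ∈ G.edgeSet ∧ c (arb1_vec V e) = j} := by
    intro j
    rw [hF]
    simp only
    rw [SimpleGraph.edgeSet_fromEdgeSet]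
    ext e
    simp only [Set.mem_sdiff, Set.mem_ofPred_eq]
    constructor
    · exact fun h => h.1
    · exact fun h => ⟨h, fun h' => G.not_isDiag_of_mem_edgeSet h.1 h'⟩
  have hac : ∀ j, (F j).IsAcyclic := by
    intro j
    rw [SimpleGraph.isAcyclic_iff_forall_adj_isBridge]
    intro u v huv
    rw [SimpleGraph.isBridge_iff]
    intro hr
    set Y := T.filter (fun x => c x = j) with hY
    have huv' : s(u, v) ∈ G.edgeSet ∧ c (arb1_vec V s(u, v)) = j := by
      have : s(u, v) ∈ (F j).edgeSet := huv
      rw [hFe] at this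
      exact this
    have hxY : arb1_vec V s(u, v) ∈ Y := by
      rw [hY, Finset.mem_filter]
      exact ⟨Finset.mem_image_of_mem _ (SimpleGraph.mem_edgeFinset.2 huv'.1), huv'.2⟩
    apply arb1_notMem_span (hc j) hxY
    have h1 := arb1_walk _ (Submodule.span ℚ ((Y.erase (arb1_vec V s(u, v)) : Finset (V → ℚ)) :
      Set (V → ℚ))) (by
        intro e he
        apply Submodule.subset_span
        rw [SimpleGraph.edgeSet_deleteEdges, hFe] at he
        obtain ⟨⟨he1, he2⟩, he3⟩ := he
        rw [Finset.mem_coe, Finset.mem_erase]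
        refine ⟨fun h => he3 ?_, ?_⟩
        · have := arb1_vec_inj (G.not_isDiag_of_mem_edgeSet he1) h
          rw [this]
          exact rfl
        · rw [hY, Finset.mem_filter]
          exact ⟨Finset.mem_image_of_mem _ (SimpleGraph.mem_edgeFinset.2 he1), he2⟩) hr
    have key : ∀ S : Submodule ℚ (V → ℚ), (Pi.single u 1 - Pi.single v 1 : V → ℚ) ∈ S →
        arb1_vec V s(u, v) ∈ S := by
      intro S hS
      rcases arb1_vec_mem u v with h7 | h7
      · rwa [h7]
      · rw [h7]
        exact Submodule.neg_mem _ hS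
    exact key _ h1
  refine ⟨F 0, F 1, hac 0, hac 1, ?_⟩
  apply SimpleGraph.edgeSet_injective
  rw [SimpleGraph.edgeSet_sup, hFe, hFe]
  ext e
  simp only [Set.mem_union, Set.mem_ofPred_eq]
  constructor
  · intro he
    rcases Fin.exists_fin_two.1 ⟨c (arb1_vec V e), rfl⟩ with h | h
    · exact Or.inl ⟨he, h⟩
    · exact Or.inr ⟨he, h⟩
  · rintro (h | h) <;> exact h.1

end Pool.Agent.H96.TT
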