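import Pool.Agent.H96.TT.Stm

set_option autoImplicit false

namespace Pool.Agent.H96.TT

open SimpleGraph

variable {V : Type}

/-- `ab` is a component of `H`. -/
def Single (H : SimpleGraph V) (a b : V) : Prop :=
  H.Adj a b ∧ (∀ w, H.Adj a w → w = b) ∧ (∀ w, H.Adj b w → w = a)

/-- The path `x y z` is a component of `H`. -/
def Triple (H : SimpleGraph V) (x y z : V) : Prop :=
  H.Adj y x ∧ H.Adj y z ∧ x ≠ z ∧ (∀ w, H.Adj x w → w = y) ∧ (∀ w, H.Adj z w → w = y) ∧
    (∀ w, H.Adj y w → w = x ∨ w = z)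

theorem not_reach_of_closed {H : SimpleGraph V} (P : Set V) (hP : ∀ c ∈ P, ∀ d, H.Adj c d → d ∈ P)
    {u v : V} (hu : u ∈ P) (hv : v ∉ P) : ¬ H.Reachable u v := by
  rintro ⟨p⟩
  obtain ⟨d, -, h1, h2⟩ := p.exists_boundary_dart P hu hv
  exact h2 (hP _ h1 _ d.adj)

theorem sw_adj {T : SimpleGraph V} {a b u v c d : V} : (sw T a b u v).Adj c d ↔
    (T.Adj c d ∧ s(c, d) ≠ s(u, v)) ∨ (s(c, d) = s(a, b) ∧ c ≠ d) := by
  unfold sw
  rw [sup_adj, sdiff_adj, adj_edge, adj_edge]
  constructor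
  · rintro (⟨h1, h2⟩ | ⟨h1, h2⟩)
    · exact Or.inl ⟨h1, fun h => h2 ⟨h.symm, h1.ne⟩⟩
    · exact Or.inr ⟨h1.symm, h2⟩
  · rintro (⟨h1, h2⟩ | ⟨h1, h2⟩)
    · exact Or.inl ⟨h1, fun h => h2 h.1.symm⟩
    · exact Or.inr ⟨h1.symm, h2⟩

theorem sw_isTree {T : SimpleGraph V} (hT : T.IsTree) {a b : V} (p : T.Walk a b) (hp : p.IsPath)
    {u v : V} (h : s(u, v) ∈ p.edges) : (sw T a b u v).IsTree := by
  have huv : T.Adj u v := p.adj_of_mem_edges h
  have hnr : ¬ (T \ edge u v).Reachable a b := by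
    intro hr
    obtain ⟨q0⟩ := hr
    classical
    set q := q0.toPath with hq
    have hle : T \ edge u v ≤ T := sdiff_le
    have h1 : (q.1.mapLe hle).IsPath := q.2.mapLe hle
    have h2 := hT.isAcyclic.path_unique ⟨p, hp⟩ ⟨_, h1⟩
    have h3 : p = q.1.mapLe hle := congrArg Subtype.val h2
    rw [h3] at h
    simp only [Walk.edges_mapLe_eq_edges] at h
    have h4 := q.1.adj_of_mem_edges h
    rw [sdiff_adj, adj_edge] at h4
    exact h4.2 ⟨rfl, huv.ne⟩
  have hac : (sw T a b u v).IsAcyclic :=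
    IsAcyclic.sup_edge_of_not_reachable hnr (hT.isAcyclic.anti sdiff_le)
  have hab : a ≠ b := by
    rintro rfl
    exact hnr (Reachable.refl _)
  have hne : Nonempty V := ⟨a⟩
  -- every vertex is connected to `u` or `v` without the edge `uv`
  have hcl : ∀ x : V, (T \ edge u v).Reachable x u ∨ (T \ edge u v).Reachable x v := by
    intro x
    have hx : T.Reachable x u := hT.connected.preconnected x u
    obtain ⟨w⟩ := hx
    suffices H : ∀ (x y : V) (w : T.Walk x y), ((T \ edge u v).Reachable y u ∨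
        (T \ edge u v).Reachable y v) → ((T \ edge u v).Reachable x u ∨
        (T \ edge u v).Reachable x v) from H _ _ w (Or.inl (Reachable.refl _))
    intro x y w
    induction w with
    | nil => exact id
    | cons hadj w ih =>
      rename_i c d e
      intro hy
      have h1 := ih hy
      by_cases h2 : s(c, d) = s(u, v)
      · rcases Sym2.eq_iff.1 h2 with ⟨rfl, rfl⟩ | ⟨rfl, rfl⟩
        · exact Or.inl (Reachable.refl _)
        · exact Or.inr (Reachable.refl _)
      · have h3 : (T \ edge u v).Adj c d := by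
          rw [sdiff_adj, adj_edge]
          exact ⟨hadj, fun h => h2 h.1.symm⟩
        rcases h1 with h1 | h1
        · exact Or.inl (h3.reachable.trans h1)
        · exact Or.inr (h3.reachable.trans h1)
  have hle' : T \ edge u v ≤ sw T a b u v := le_sup_left
  have hab' : (sw T a b u v).Reachable a b := by
    apply Adj.reachable
    rw [sw_adj]
    exact Or.inr ⟨rfl, hab⟩
  have huv' : (sw T a b u v).Reachable u v := by
    rcases hcl a with h1 | h1 <;> rcases hcl b with h2 | h2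
    · exact absurd (h1.trans h2.symm) hnr
    · exact ((h1.mono hle').symm.trans hab').trans (h2.mono hle')
    · exact ((h2.mono hle').symm.trans hab'.symm).trans (h1.mono hle')
    · exact absurd (h1.trans h2.symm) hnr
  have hpre : (sw T a b u v).Preconnected := by
    intro x y
    rcases hcl x with h1 | h1 <;> rcases hcl y with h2 | h2
    · exact (h1.mono hle').trans (h2.mono hle').symm
    · exact ((h1.mono hle').trans huv').trans (h2.mono hle').symm
    · exact ((h1.mono hle').trans huv'.symm).trans (h2.mono hle').symm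
    · exact (h1.mono hle').trans (h2.mono hle').symm
  exact ⟨⟨hpre⟩, hac⟩

/-- The complement after an exchange. -/
theorem co_adj {G T : SimpleGraph V} {a b u v : V} (hTG : T ≤ G)
    (hab : (G \ T).Adj a b) (huv : T.Adj u v) {c d : V} : (G \ sw T a b u v).Adj c d ↔
    ((G \ T).Adj c d ∧ s(c, d) ≠ s(a, b)) ∨ s(c, d) = s(u, v) := by
  rw [sdiff_adj, sw_adj, sdiff_adj]
  rw [sdiff_adj] at hab
  have hne : ∀ {c d : V}, s(c, d) = s(u, v) → T.Adj c d := by
    intro c d h
    rcases Sym2.eq_iff.1 h with ⟨rfl, rfl⟩ | ⟨rfl, rfl⟩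
    · exact huv
    · exact huv.symm
  have hne2 : ∀ {c d : V}, s(c, d) = s(a, b) → ¬ T.Adj c d := by
    intro c d h
    rcases Sym2.eq_iff.1 h with ⟨rfl, rfl⟩ | ⟨rfl, rfl⟩
    · exact hab.2
    · exact fun h => hab.2 h.symm
  constructor
  · rintro ⟨h1, h2⟩
    by_cases h3 : s(c, d) = s(u, v)
    · exact Or.inr h3
    · left
      refine ⟨⟨h1, fun h4 => h2 (Or.inl ⟨h4, h3⟩)⟩, fun h4 => h2 (Or.inr ⟨h4, h1.ne⟩)⟩
  · rintro (⟨⟨h1, h2⟩, h3⟩ | h1)
    · refine ⟨h1, ?_⟩
      rintro (⟨h4, -⟩ | ⟨h4, -⟩)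
      · exact h2 h4
      · exact h3 h4
    · refine ⟨hTG (hne h1), ?_⟩
      rintro (⟨-, h4⟩ | ⟨h4, -⟩)
      · exact h4 h1
      · exact hne2 h4 (hne h1)

theorem co_eq {G T : SimpleGraph V} {a b u v : V} (hTG : T ≤ G)
    (hab : (G \ T).Adj a b) (huv : T.Adj u v) :
    G \ sw T a b u v = ((G \ T) \ edge a b) ⊔ edge u v := by
  ext c d
  have h0 : ((G \ T) \ edge a b).Adj c d ↔ (G \ T).Adj c d ∧ ¬ (edge a b).Adj c d :=
    sdiff_adj ..
  rw [co_adj hTG hab huv, sup_adj, h0, adj_edge, adj_edge]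
  constructor
  · rintro (⟨h1, h2⟩ | h)
    · exact Or.inl ⟨h1, fun h => h2 h.1.symm⟩
    · refine Or.inr ⟨h.symm, ?_⟩
      rintro rfl
      rcases Sym2.eq_iff.1 h with ⟨rfl, rfl⟩ | ⟨rfl, rfl⟩ <;> exact huv.ne rfl
  · rintro (⟨h1, h2⟩ | ⟨h1, h2⟩)
    · exact Or.inl ⟨h1, fun h => h2 ⟨h.symm, h1.ne⟩⟩
    · exact Or.inr h1.symm

theorem adm_sw {G T : SimpleGraph V} (hA : Adm G T) {a b : V} (hab : (G \ T).Adj a b)
    (p : T.Walk a b) (hp : p.IsPath) {u v : V} (h : s(u, v) ∈ p.edges)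
    (P : Set V) (hP : ∀ c ∈ P, ∀ d, (G \ T).Adj c d → s(c, d) ≠ s(a, b) → d ∈ P)
    (hu : u ∈ P) (hv : v ∉ P) : Adm G (sw T a b u v) := by
  have huv := p.adj_of_mem_edges h
  refine ⟨?_, sw_isTree hA.2.1 p hp h, ?_⟩
  · intro c d hcd
    rw [sw_adj] at hcd
    rcases hcd with ⟨h1, -⟩ | ⟨h1, -⟩
    · exact hA.1 h1
    · rw [sdiff_adj] at hab
      rcases Sym2.eq_iff.1 h1 with ⟨rfl, rfl⟩ | ⟨rfl, rfl⟩
      · exact hab.1
      · exact hab.1.symm
  · rw [co_eq hA.1 hab huv]
    apply IsAcyclic.sup_edge_of_not_reachable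
    · apply not_reach_of_closed P _ hu hv
      intro c hc d hd
      rw [sdiff_adj, adj_edge] at hd
      exact hP c hc d hd.1 fun h => hd.2 ⟨h.symm, hd.1.ne⟩
    · exact hA.2.2.anti sdiff_le

/-- A path avoiding the removed edge survives. -/
theorem keep {T : SimpleGraph V} {a b u v c d : V} (q : T.Walk c d) (hq : q.IsPath)
    (h : s(u, v) ∉ q.edges) : ∃ q' : (sw T a b u v).Walk c d, q'.IsPath ∧
      q'.support = q.support ∧ q'.edges = q.edges := by
  have h1 : ∀ e ∈ q.edges, e ∈ (sw T a b u v).edgeSet := by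
    intro e he
    induction e using Sym2.ind with
    | _ x y =>
      rw [mem_edgeSet, sw_adj]
      refine Or.inl ⟨q.adj_of_mem_edges he, ?_⟩
      intro h2
      rw [h2] at he
      exact h he
  exact ⟨q.transfer _ h1, hq.transfer h1, Walk.support_transfer q h1, Walk.edges_transfer q h1⟩

section fin

variable [Fintype V]

theorem Opt.of_le {G T T' : SimpleGraph V} (hT : Opt G T) (hA : Adm G T')
    (h : sz (G \ T') ≤ sz (G \ T)) : Opt G T' :=
  ⟨hA, fun T'' h'' => h.trans (hT.2 T'' h'')⟩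

/-- (b): the cycle of a single edge meets no other component. -/
theorem fact_b {G T : SimpleGraph V} (hT : Opt G T) {a b : V} (hs : Single (G \ T) a b)
    (p : T.Walk a b) (hp : p.IsPath) {v : V} (hv : v ∈ p.support) (hvs : v ∈ (G \ T).support) :
    v = a ∨ v = b := by
  classical
  by_contra hcon
  push Not at hcon
  obtain ⟨hva, hvb⟩ := hcon
  obtain ⟨d, hd, hd1, hd2⟩ := (p.takeUntil v hv).exists_boundary_dart
    {c | ¬ (c ∈ (G \ T).support ∧ c ≠ a)} (by simp) (by
      simp only [Set.mem_ofPred_eq, not_not]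
      exact ⟨hvs, hva⟩)
  set u := d.fst with hu
  set v' := d.snd with hv'
  simp only [Set.mem_ofPred_eq, not_not] at hd1 hd2
  have he : s(u, v') ∈ p.edges := by
    apply p.edges_takeUntil_subset_edges hv
    exact List.mem_map_of_mem (f := Dart.edge) hd
  have hv'b : v' ≠ b := by
    intro h
    have h1 : v' ∈ (p.takeUntil v hv).support := Walk.dart_snd_mem_support_of_mem_darts _ hd
    rw [h] at h1
    exact Walk.endpoint_notMem_support_takeUntil hp hv hvb.symm h1
  have huv : T.Adj u v' := p.adj_of_mem_edges he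
  have hA := adm_sw hT.1 hs.1 p hp he {u} (by
    rintro c hc d' hd' hne
    rw [Set.mem_singleton_iff] at hc
    subst hc
    exfalso
    have h1 : u = a := by
      by_contra h2
      exact hd1 ⟨⟨d', hd'⟩, h2⟩
    rw [h1] at hd'
    rw [h1] at hne
    exact hne (by rw [hs.2.1 d' hd'])) rfl (fun h => huv.ne (Set.mem_singleton_iff.1 h).symm)
  have hlt : sz (G \ sw T a b u v') < sz (G \ T) := by
    unfold sz
    have h1 : (G \ sw T a b u v').support ⊆ insert u ((G \ T).support \ {a, b}) := by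
      rintro c ⟨e, hce0⟩
      have hce : (G \ sw T a b u v').Adj c e := hce0
      rw [co_adj hT.1.1 hs.1 huv] at hce
      rcases hce with ⟨h1, h2⟩ | h1
      · right
        refine ⟨⟨e, h1⟩, ?_⟩
        rintro (h3 | h3)
        · subst h3
          exact h2 (by rw [hs.2.1 e h1])
        · rw [Set.mem_singleton_iff] at h3
          subst h3
          exact h2 (by rw [hs.2.2 e h1, Sym2.eq_swap])
      · rcases Sym2.eq_iff.1 h1 with ⟨h3, -⟩ | ⟨h3, -⟩
        · exact Or.inl h3
        · right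
          rw [h3]
          refine ⟨hd2.1, ?_⟩
          rintro (h4 | h4)
          · exact hd2.2 h4
          · exact hv'b h4
    have h2 : ({a, b} : Set V) ⊆ (G \ T).support := by
      rintro c (h | h)
      · rw [h]; exact ⟨b, hs.1⟩
      · rw [Set.mem_singleton_iff] at h
        rw [h]; exact ⟨a, hs.1.symm⟩
    have h3 := Set.ncard_le_ncard h1 (Set.toFinite _)
    have h4 := Set.ncard_insert_le u ((G \ T).support \ {a, b})
    have h5 := Set.ncard_sdiff_add_ncard_of_subset h2 (Set.toFinite _)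
    have h6 : ({a, b} : Set V).ncard = 2 := Set.ncard_pair hs.1.ne
    omega
  exact absurd (hT.2 _ hA) (by omega)

end fin

end Pool.Agent.H96.TT
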