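import Pool.Agent.H96.TT.Core1

set_option autoImplicit false

namespace Pool.Agent.H96.TT

open SimpleGraph

variable {V : Type} [Fintype V]

/-- (c): the cycles of two single edges are disjoint. -/
theorem fact_c {G T : SimpleGraph V} (hT : Opt G T) {a b a' b' : V} (hs : Single (G \ T) a b)
    (hs' : Single (G \ T) a' b') (h1 : a ≠ a') (h2 : a ≠ b') (h3 : b ≠ a') (h4 : b ≠ b')
    (p : T.Walk a b) (hp : p.IsPath) (p' : T.Walk a' b') (hp' : p'.IsPath) {c : V}
    (hc : c ∈ p.support) (hc' : c ∈ p'.support) : False := by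
  classical
  have hsa : a ∈ (G \ T).support := ⟨b, hs.1⟩
  have hsb : b ∈ (G \ T).support := ⟨a, hs.1.symm⟩
  have hsa' : a' ∈ (G \ T).support := ⟨b', hs'.1⟩
  have hsb' : b' ∈ (G \ T).support := ⟨a', hs'.1.symm⟩
  have ha : a ∉ p'.support := fun h => by
    rcases fact_b hT hs' p' hp' h hsa with h | h
    · exact h1 h
    · exact h2 h
  have hb : b ∉ p'.support := fun h => by
    rcases fact_b hT hs' p' hp' h hsb with h | h
    · exact h3 h
    · exact h4 h
  have ha' : a' ∉ p.support := fun h => by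
    rcases fact_b hT hs p hp h hsa' with h | h
    · exact h1 h.symm
    · exact h3 h.symm
  have hb' : b' ∉ p.support := fun h => by
    rcases fact_b hT hs p hp h hsb' with h | h
    · exact h2 h.symm
    · exact h4 h.symm
  obtain ⟨d, hd, hd1, hd2⟩ := (p.takeUntil c hc).exists_boundary_dart
    {x | x ∉ p'.support} ha (by
      intro h
      exact h hc')
  set u := d.fst with hu
  set v := d.snd with hv
  have hd1' : u ∉ p'.support := hd1
  have hd2' : v ∈ p'.support := by
    by_contra h
    exact hd2 h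
  have he : s(u, v) ∈ p.edges := by
    apply p.edges_takeUntil_subset_edges hc
    exact List.mem_map_of_mem (f := Dart.edge) hd
  have hup : u ∈ p.support := Walk.fst_mem_support_of_mem_edges _ he
  have hvp : v ∈ p.support := Walk.snd_mem_support_of_mem_edges _ he
  have huv : T.Adj u v := p.adj_of_mem_edges he
  have hva : v ≠ a := fun h => ha (h ▸ hd2')
  have hvb : v ≠ b := fun h => hb (h ▸ hd2')
  have hvs : v ∉ (G \ T).support := fun h => by
    rcases fact_b hT hs p hp hvp h with h | h
    · exact hva h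
    · exact hvb h
  have he2 : s(v, u) ∈ p.edges := by rwa [Sym2.eq_swap]
  have hA := adm_sw hT.1 hs.1 p hp he2 {v} (by
    rintro c hc d' hd' -
    rw [Set.mem_singleton_iff] at hc
    subst hc
    exact absurd ⟨d', hd'⟩ hvs) rfl (fun h => huv.ne (Set.mem_singleton_iff.1 h))
  have hle : sz (G \ sw T a b v u) ≤ sz (G \ T) := by
    unfold sz
    have h1 : (G \ sw T a b v u).support ⊆ insert u (insert v ((G \ T).support \ {a, b})) := by
      rintro c ⟨e, hce0⟩
      have hce : (G \ sw T a b v u).Adj c e := hce0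
      rw [co_adj hT.1.1 hs.1 huv.symm] at hce
      rcases hce with ⟨k1, k2⟩ | h1
      · right
        right
        refine ⟨⟨e, k1⟩, ?_⟩
        rintro (k3 | k3)
        · subst k3
          exact k2 (by rw [hs.2.1 e k1])
        · rw [Set.mem_singleton_iff] at k3
          subst k3
          exact k2 (by rw [hs.2.2 e k1, Sym2.eq_swap])
      · rcases Sym2.eq_iff.1 h1 with ⟨h3, -⟩ | ⟨h3, -⟩
        · exact Or.inr (Or.inl h3)
        · exact Or.inl h3
    have h2 : ({a, b} : Set V) ⊆ (G \ T).support := by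
      rintro c (h | h)
      · rw [h]; exact hsa
      · rw [Set.mem_singleton_iff] at h
        rw [h]; exact hsb
    have h3 := Set.ncard_le_ncard h1 (Set.toFinite _)
    have h4 := Set.ncard_insert_le u (insert v ((G \ T).support \ {a, b}))
    have h4' := Set.ncard_insert_le v ((G \ T).support \ {a, b})
    have h5 := Set.ncard_sdiff_add_ncard_of_subset h2 (Set.toFinite _)
    have h6 : ({a, b} : Set V).ncard = 2 := Set.ncard_pair hs.1.ne
    omega
  have hO := Opt.of_le hT hA hle
  have huv' : ∀ x : V, x ∉ p.support → ∀ y, s(x, y) ≠ s(v, u) := by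
    intro x hx y h
    rcases Sym2.eq_iff.1 h with ⟨rfl, -⟩ | ⟨rfl, -⟩
    · exact hx hvp
    · exact hx hup
  have hnew : Single (G \ sw T a b v u) a' b' := by
    refine ⟨?_, ?_, ?_⟩
    · rw [co_adj hT.1.1 hs.1 huv.symm]
      left
      refine ⟨hs'.1, fun h => ?_⟩
      rcases Sym2.eq_iff.1 h with ⟨h5, -⟩ | ⟨h5, -⟩
      · exact h1 h5.symm
      · exact h3 h5.symm
    · intro w hw
      rw [co_adj hT.1.1 hs.1 huv.symm] at hw
      rcases hw with ⟨hw, -⟩ | hw
      · exact hs'.2.1 w hw
      · exact absurd hw (huv' _ ha' _)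
    · intro w hw
      rw [co_adj hT.1.1 hs.1 huv.symm] at hw
      rcases hw with ⟨hw, -⟩ | hw
      · exact hs'.2.2 w hw
      · exact absurd hw (huv' _ hb' _)
  obtain ⟨q, hq, hqs, -⟩ := keep (a := a) (b := b) (u := v) (v := u) p' hp' (by
    intro h
    exact hd1' (Walk.snd_mem_support_of_mem_edges _ h))
  have hvq : v ∈ q.support := by rw [hqs]; exact hd2'
  have hvs' : v ∈ (G \ sw T a b v u).support := by
    refine ⟨u, ?_⟩
    have h0 : (G \ sw T a b v u).Adj v u := by
      rw [co_adj hT.1.1 hs.1 huv.symm]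
      exact Or.inr rfl
    exact h0
  rcases fact_b hO hnew q hq hvq hvs' with h | h
  · exact ha' (h ▸ hvp)
  · exact hb' (h ▸ hvp)

/-- (d): the next vertex on the tree path from the middle to an end is isolated in the forest. -/
theorem fact_d {G T : SimpleGraph V} (hT : Opt G T) {x y z w : V} (hs : Triple (G \ T) x y z)
    (p : T.Walk y x) (hp : p.IsPath) (hw : s(y, w) ∈ p.edges) : w ∉ (G \ T).support := by
  intro hws
  obtain ⟨hyx, hyz, hxz, hx, hz, hy⟩ := hs
  have hyw : T.Adj y w := p.adj_of_mem_edges hw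
  have hwx : w ≠ x := by
    rintro rfl
    exact ((sdiff_adj ..).1 hyx).2 hyw
  have hwz : w ≠ z := by
    rintro rfl
    exact ((sdiff_adj ..).1 hyz).2 hyw
  have hA := adm_sw hT.1 hyx p hp hw {y, z} (by
    rintro c hc d hd hne
    rcases hc with rfl | hc
    · rcases hy d hd with rfl | rfl
      · exact absurd rfl hne
      · exact Or.inr rfl
    · rw [Set.mem_singleton_iff] at hc
      subst hc
      exact Or.inl (hz d hd)) (Or.inl rfl) (by
    rintro (h | h)
    · exact hyw.ne h.symm
    · exact hwz h)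
  have hlt : sz (G \ sw T y x y w) < sz (G \ T) := by
    unfold sz
    have h1 : (G \ sw T y x y w).support ⊆ (G \ T).support \ {x} := by
      rintro c ⟨e, hce0⟩
      have hce : (G \ sw T y x y w).Adj c e := hce0
      rw [co_adj hT.1.1 hyx hyw] at hce
      rcases hce with ⟨h1, h2⟩ | h1
      · refine ⟨⟨e, h1⟩, ?_⟩
        intro h3
        rw [Set.mem_singleton_iff] at h3
        subst h3
        exact h2 (by rw [hx e h1, Sym2.eq_swap])
      · rcases Sym2.eq_iff.1 h1 with ⟨h3, -⟩ | ⟨h3, -⟩
        · rw [h3]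
          exact ⟨⟨x, hyx⟩, fun h => hyx.ne h⟩
        · rw [h3]
          exact ⟨hws, fun h => hwx h⟩
    have h2 : ({x} : Set V) ⊆ (G \ T).support := by
      intro c h
      rw [Set.mem_singleton_iff] at h
      rw [h]
      exact ⟨y, hyx.symm⟩
    have h3 := Set.ncard_le_ncard h1 (Set.toFinite _)
    have h5 := Set.ncard_sdiff_add_ncard_of_subset h2 (Set.toFinite _)
    have h6 : ({x} : Set V).ncard = 1 := Set.ncard_singleton x
    omega
  exact absurd (hT.2 _ hA) (by omega)

/-- The exchange of `yx` for `cw`, where `w` is isolated in the forest. -/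
theorem opt_move {G T : SimpleGraph V} (hT : Opt G T) {x y z w c : V}
    (hs : Triple (G \ T) x y z) (p : T.Walk y x) (hp : p.IsPath) (hw : s(c, w) ∈ p.edges)
    (hws : w ∉ (G \ T).support) (hcs : c ∈ (G \ T).support) (hcx : c ≠ x) :
    Opt G (sw T y x c w) := by
  obtain ⟨hyx, hyz, hxz, hx, hz, hy⟩ := hs
  have hcw : T.Adj c w := p.adj_of_mem_edges hw
  have hw2 : s(w, c) ∈ p.edges := by rwa [Sym2.eq_swap]
  have hA := adm_sw hT.1 hyx p hp hw2 {w} (by
    rintro e he d hd -
    rw [Set.mem_singleton_iff] at he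
    subst he
    exact absurd ⟨d, hd⟩ hws) rfl (fun h => hcw.ne (Set.mem_singleton_iff.1 h))
  have hsw : sw T y x w c = sw T y x c w := by
    unfold sw
    rw [edge_comm w c]
  rw [hsw] at hA
  apply Opt.of_le hT hA
  unfold sz
  have h1 : (G \ sw T y x c w).support ⊆ insert w (insert c ((G \ T).support \ {x})) := by
    rintro f ⟨e, hce0⟩
    have hce : (G \ sw T y x c w).Adj f e := hce0
    rw [co_adj hT.1.1 hyx hcw] at hce
    rcases hce with ⟨h1, h2⟩ | h1
    · right
      right
      refine ⟨⟨e, h1⟩, ?_⟩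
      intro h3
      rw [Set.mem_singleton_iff] at h3
      subst h3
      exact h2 (by rw [hx e h1, Sym2.eq_swap])
    · rcases Sym2.eq_iff.1 h1 with ⟨h3, -⟩ | ⟨h3, -⟩
      · exact Or.inr (Or.inl h3)
      · exact Or.inl h3
  have h2 : ({x} : Set V) ⊆ (G \ T).support := by
    intro c h
    rw [Set.mem_singleton_iff] at h
    rw [h]
    exact ⟨y, hyx.symm⟩
  have h3 := Set.ncard_le_ncard h1 (Set.toFinite _)
  have h4 := Set.ncard_insert_le w (insert c ((G \ T).support \ {x}))
  have h5 := Set.ncard_sdiff_add_ncard_of_subset h2 (Set.toFinite _)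
  have h6 : ({x} : Set V).ncard = 1 := Set.ncard_singleton x
  have h8 : insert c ((G \ T).support \ {x}) = (G \ T).support \ {x} := by
    apply Set.insert_eq_of_mem
    exact ⟨hcs, hcx⟩
  rw [h8] at h4 h1
  have h3' := Set.ncard_le_ncard h1 (Set.toFinite _)
  omega

/-- (e): this vertex is not on the cycle of a single edge. -/
theorem fact_e {G T : SimpleGraph V} (hT : Opt G T) {x y z w a b : V}
    (hs : Triple (G \ T) x y z) (p : T.Walk y x) (hp : p.IsPath) (hw : s(y, w) ∈ p.edges)
    (hab : Single (G \ T) a b) (q : T.Walk a b) (hq : q.IsPath) : w ∉ q.support := by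
  intro hwq
  have hws := fact_d hT hs p hp hw
  have hyw : T.Adj y w := p.adj_of_mem_edges hw
  have hys : y ∈ (G \ T).support := ⟨x, hs.1⟩
  have hO := opt_move hT hs p hp hw hws hys hs.1.ne
  obtain ⟨hyx, hyz, hxz, hx, hz, hy⟩ := hs
  have hya : y ≠ a := by
    rintro rfl
    exact hxz ((hab.2.1 x hyx).trans (hab.2.1 z hyz).symm)
  have hyb : y ≠ b := by
    rintro rfl
    exact hxz ((hab.2.2 x hyx).trans (hab.2.2 z hyz).symm)
  have hyq : y ∉ q.support := fun h => by
    rcases fact_b hT hab q hq h hys with h | h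
    · exact hya h
    · exact hyb h
  have hxa : x ≠ a := by
    rintro rfl
    have h1 := hab.2.1 y hyx.symm
    exact hyb h1
  have hxb : x ≠ b := by
    rintro rfl
    have h1 := hab.2.2 y hyx.symm
    exact hya h1
  have hwa : w ≠ a := fun h => hws (h ▸ ⟨b, hab.1⟩)
  have hwb : w ≠ b := fun h => hws (h ▸ ⟨a, hab.1.symm⟩)
  have key : ∀ c d : V, c ≠ y → c ≠ w → (G \ sw T y x y w).Adj c d → (G \ T).Adj c d := by
    intro c d h1 h2 h3
    rw [co_adj hT.1.1 hyx hyw] at h3
    rcases h3 with ⟨h3, -⟩ | h3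
    · exact h3
    · rcases Sym2.eq_iff.1 h3 with ⟨h4, -⟩ | ⟨h4, -⟩
      · exact absurd h4 h1
      · exact absurd h4 h2
  have hnew : Single (G \ sw T y x y w) a b := by
    refine ⟨?_, fun c hc => hab.2.1 c (key _ _ hya.symm hwa.symm hc),
      fun c hc => hab.2.2 c (key _ _ hyb.symm hwb.symm hc)⟩
    rw [co_adj hT.1.1 hyx hyw]
    left
    refine ⟨hab.1, fun h => ?_⟩
    rcases Sym2.eq_iff.1 h with ⟨h5, -⟩ | ⟨h5, -⟩
    · exact hya h5.symm
    · exact hxa h5.symm
  obtain ⟨q', hq', hqs, -⟩ := keep (a := y) (b := x) (u := y) (v := w) q hq (by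
    intro h
    exact hyq (Walk.fst_mem_support_of_mem_edges _ h))
  have hwq' : w ∈ q'.support := by rw [hqs]; exact hwq
  have hws' : w ∈ (G \ sw T y x y w).support := by
    refine ⟨y, ?_⟩
    have h0 : (G \ sw T y x y w).Adj w y := by
      rw [co_adj hT.1.1 hyx hyw]
      exact Or.inr Sym2.eq_swap
    exact h0
  rcases fact_b hO hnew q' hq' hwq' hws' with h | h
  · exact hwa h
  · exact hwb h

/-- (f), first case. -/
theorem fact_f1 {G T : SimpleGraph V} (hT : Opt G T) {x y z w x' y' z' : V}
    (hs : Triple (G \ T) x y z) (hs' : Triple (G \ T) x' y' z')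
    (h1 : x' ≠ y) (h2 : y' ≠ y) (h3 : z' ≠ y) (h4 : x' ≠ x) (h5 : y' ≠ x) (h6 : z' ≠ x)
    (p : T.Walk y x) (hp : p.IsPath) (hw : s(y, w) ∈ p.edges)
    (p' : T.Walk y' x') (hp' : p'.IsPath) (hw' : s(y', w) ∈ p'.edges)
    (hne : s(y, w) ∉ p'.edges) : False := by
  have hws := fact_d hT hs p hp hw
  have hyw : T.Adj y w := p.adj_of_mem_edges hw
  have hys : y ∈ (G \ T).support := ⟨x, hs.1⟩
  have hO := opt_move hT hs p hp hw hws hys hs.1.ne
  obtain ⟨hyx, hyz, hxz, hx, hz, hy⟩ := hs
  obtain ⟨hyx', hyz', hxz', hx', hz', hy'⟩ := hs'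
  have k1 : x' ≠ w := fun h => hws (h ▸ ⟨y', hyx'.symm⟩)
  have k2 : y' ≠ w := fun h => hws (h ▸ ⟨x', hyx'⟩)
  have k3 : z' ≠ w := fun h => hws (h ▸ ⟨y', hyz'.symm⟩)
  have key : ∀ c d : V, c ≠ y → c ≠ w → (G \ sw T y x y w).Adj c d → (G \ T).Adj c d := by
    intro c d h1 h2 h3
    rw [co_adj hT.1.1 hyx hyw] at h3
    rcases h3 with ⟨h3, -⟩ | h3
    · exact h3
    · rcases Sym2.eq_iff.1 h3 with ⟨h4, -⟩ | ⟨h4, -⟩
      · exact absurd h4 h1
      · exact absurd h4 h2
  have key2 : ∀ c d : V, c ≠ y → c ≠ x → (G \ T).Adj c d → (G \ sw T y x y w).Adj c d := by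
    intro c d h1 h2 h3
    rw [co_adj hT.1.1 hyx hyw]
    refine Or.inl ⟨h3, fun h => ?_⟩
    rcases Sym2.eq_iff.1 h with ⟨h4, -⟩ | ⟨h4, -⟩
    · exact h1 h4
    · exact h2 h4
  have hnew : Triple (G \ sw T y x y w) x' y' z' :=
    ⟨key2 _ _ h2 h5 hyx', key2 _ _ h2 h5 hyz', hxz', fun c hc => hx' c (key _ _ h1 k1 hc),
      fun c hc => hz' c (key _ _ h3 k3 hc), fun c hc => hy' c (key _ _ h2 k2 hc)⟩
  obtain ⟨q, hq, -, hqe⟩ := keep (a := y) (b := x) (u := y) (v := w) p' hp' hne
  have h7 : s(y', w) ∈ q.edges := by rw [hqe]; exact hw'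
  apply fact_d hO hnew q hq h7
  refine ⟨y, ?_⟩
  have h0 : (G \ sw T y x y w).Adj w y := by
    rw [co_adj hT.1.1 hyx hyw]
    exact Or.inr Sym2.eq_swap
  exact h0

/-- (f): the further vertices of two paths with three vertices are different. -/
theorem fact_f {G T : SimpleGraph V} (hT : Opt2 G T) {x y z w x' y' z' : V}
    (hs : Triple (G \ T) x y z) (hs' : Triple (G \ T) x' y' z')
    (h1 : x' ≠ y) (h2 : y' ≠ y) (h3 : z' ≠ y) (h4 : x' ≠ x) (h5 : y' ≠ x) (h6 : z' ≠ x)
    (h7 : x ≠ y') (h8 : z ≠ y') (h9 : z ≠ x')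
    (p : T.Walk y x) (hp : p.IsPath) (hw : s(y, w) ∈ p.edges)
    (p' : T.Walk y' x') (hp' : p'.IsPath) (hw' : s(y', w) ∈ p'.edges) : False := by
  classical
  by_cases hA : s(y, w) ∈ p'.edges
  · by_cases hB : s(y', w) ∈ p.edges
    · have hws := fact_d hT.1 hs p hp hw
      have hys' : y' ∈ (G \ T).support := ⟨x', hs'.1⟩
      have hyw : T.Adj y' w := p.adj_of_mem_edges hB
      have hO := opt_move hT.1 hs p hp hB hws hys' h5
      obtain ⟨hyx, hyz, hxz, hx, hz, hy⟩ := hs
      obtain ⟨hyx', hyz', hxz', hx', hz', hy'⟩ := hs'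
      have hge := hT.2 _ hO
      have kwx : w ≠ x := fun h => hws (h ▸ ⟨y, hyx.symm⟩)
      have kwy : w ≠ y := fun h => hws (h ▸ ⟨x, hyx⟩)
      have kwy' : w ≠ y' := fun h => hws (h ▸ hys')
      have kwz : w ≠ z := fun h => hws (h ▸ ⟨y, hyz.symm⟩)
      have kwx' : w ≠ x' := fun h => hws (h ▸ ⟨y', hyx'.symm⟩)
      have kwz' : w ≠ z' := fun h => hws (h ▸ ⟨y', hyz'.symm⟩)
      have hadj : ∀ c d : V, (G \ sw T y x y' w).Adj c d ↔
          ((G \ T).Adj c d ∧ s(c, d) ≠ s(y, x)) ∨ s(c, d) = s(y', w) :=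
        fun c d => co_adj hT.1.1.1 hyx hyw
      -- degrees
      have nx : (G \ T).neighborSet x = {y} := by
        ext c
        simp only [mem_neighborSet, Set.mem_singleton_iff]
        exact ⟨hx c, fun h => h ▸ hyx.symm⟩
      have ny : (G \ T).neighborSet y = {x, z} := by
        ext c
        simp only [mem_neighborSet, Set.mem_singleton_iff, Set.mem_insert_iff]
        refine ⟨hy c, fun h => ?_⟩
        rcases h with rfl | rfl
        · exact hyx
        · exact hyz
      have ny' : (G \ T).neighborSet y' = {x', z'} := by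
        ext c
        simp only [mem_neighborSet, Set.mem_singleton_iff, Set.mem_insert_iff]
        refine ⟨hy' c, fun h => ?_⟩
        rcases h with rfl | rfl
        · exact hyx'
        · exact hyz'
      have nw : (G \ T).neighborSet w = ∅ := by
        ext c
        simp only [mem_neighborSet, Set.mem_empty_iff_false, iff_false]
        exact fun h => hws ⟨c, h⟩
      have mx : (G \ sw T y x y' w).neighborSet x = ∅ := by
        ext c
        simp only [mem_neighborSet, Set.mem_empty_iff_false, iff_false]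
        rw [hadj]
        rintro (⟨k1, k2⟩ | k1)
        · exact k2 (by rw [hx c k1, Sym2.eq_swap])
        · rcases Sym2.eq_iff.1 k1 with ⟨k2, -⟩ | ⟨k2, -⟩
          · exact h7 k2
          · exact kwx k2.symm
      have my : (G \ sw T y x y' w).neighborSet y = {z} := by
        ext c
        simp only [mem_neighborSet, Set.mem_singleton_iff]
        rw [hadj]
        constructor
        · rintro (⟨k1, k2⟩ | k1)
          · rcases hy c k1 with rfl | rfl
            · exact absurd rfl k2
            · rfl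
          · rcases Sym2.eq_iff.1 k1 with ⟨k2, -⟩ | ⟨k2, -⟩
            · exact absurd k2.symm h2
            · exact absurd k2.symm kwy
        · rintro rfl
          refine Or.inl ⟨hyz, fun k => ?_⟩
          rcases Sym2.eq_iff.1 k with ⟨-, k2⟩ | ⟨k2, -⟩
          · exact hxz k2.symm
          · exact hyx.ne k2
      have my' : (G \ sw T y x y' w).neighborSet y' = {x', z', w} := by
        ext c
        simp only [mem_neighborSet, Set.mem_singleton_iff, Set.mem_insert_iff]
        rw [hadj]
        constructor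
        · rintro (⟨k1, -⟩ | k1)
          · rcases hy' c k1 with rfl | rfl
            · exact Or.inl rfl
            · exact Or.inr (Or.inl rfl)
          · rcases Sym2.eq_iff.1 k1 with ⟨-, k2⟩ | ⟨k2, -⟩
            · exact Or.inr (Or.inr k2)
            · exact absurd k2.symm kwy'
        · have hn : ∀ c : V, s(y', c) ≠ s(y, x) := by
            intro c k
            rcases Sym2.eq_iff.1 k with ⟨k2, -⟩ | ⟨k2, -⟩
            · exact h2 k2
            · exact h5 k2
          rintro (rfl | rfl | rfl)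
          · exact Or.inl ⟨hyx', hn _⟩
          · exact Or.inl ⟨hyz', hn _⟩
          · exact Or.inr rfl
      have mw : (G \ sw T y x y' w).neighborSet w = {y'} := by
        ext c
        simp only [mem_neighborSet, Set.mem_singleton_iff]
        rw [hadj]
        constructor
        · rintro (⟨k1, -⟩ | k1)
          · exact absurd ⟨c, k1⟩ hws
          · rcases Sym2.eq_iff.1 k1 with ⟨k2, -⟩ | ⟨-, k2⟩
            · exact absurd k2 kwy'
            · exact k2
        · rintro rfl
          exact Or.inr Sym2.eq_swap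
      have mo : ∀ c : V, c ≠ x → c ≠ y → c ≠ y' → c ≠ w →
          (G \ sw T y x y' w).neighborSet c = (G \ T).neighborSet c := by
        intro c c1 c2 c3 c4
        ext d
        simp only [mem_neighborSet]
        rw [hadj]
        constructor
        · rintro (⟨k1, -⟩ | k1)
          · exact k1
          · rcases Sym2.eq_iff.1 k1 with ⟨k2, -⟩ | ⟨k2, -⟩
            · exact absurd k2 c3
            · exact absurd k2 c4
        · intro k1
          refine Or.inl ⟨k1, fun k => ?_⟩
          rcases Sym2.eq_iff.1 k with ⟨k2, -⟩ | ⟨k2, -⟩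
          · exact c2 k2
          · exact c1 k2
      unfold sq at hge
      have split : ∀ f : V → ℕ, ∑ v, f v = (f x + (f y + (f y' + f w))) +
          ∑ v ∈ Finset.univ \ {x, y, y', w}, f v := by
        intro f
        rw [← Finset.sum_sdiff (Finset.subset_univ ({x, y, y', w} : Finset V)), add_comm]
        congr 1
        rw [Finset.sum_insert, Finset.sum_insert, Finset.sum_insert, Finset.sum_singleton]
        · simp [kwy'.symm]
        · simp [h2.symm, kwy.symm]
        · simp [hyx.ne.symm, h7, kwx.symm]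
      rw [split, split] at hge
      have hrest : ∑ v ∈ Finset.univ \ {x, y, y', w}, ((G \ sw T y x y' w).neighborSet v).ncard ^ 2
          = ∑ v ∈ Finset.univ \ {x, y, y', w}, ((G \ T).neighborSet v).ncard ^ 2 := by
        apply Finset.sum_congr rfl
        intro v hv
        simp only [Finset.mem_sdiff, Finset.mem_univ, true_and, Finset.mem_insert,
          Finset.mem_singleton, not_or] at hv
        rw [mo v hv.1 hv.2.1 hv.2.2.1 hv.2.2.2]
      rw [hrest, nx, ny, ny', nw, mx, my, my', mw] at hge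
      have e3 : ({x', z', w} : Set V).ncard = 3 := by
        rw [Set.ncard_insert_of_notMem, Set.ncard_pair kwz'.symm]
        simp [hxz', kwx'.symm]
      rw [Set.ncard_singleton, Set.ncard_singleton, Set.ncard_singleton, Set.ncard_empty,
        Set.ncard_pair hxz, Set.ncard_pair hxz', e3] at hge
      omega
    · exact fact_f1 hT.1 hs' hs (x' := x) (y' := y) (z' := z) h7 h2.symm h8 h4.symm h1.symm h9
        p' hp' hw' p hp hw hB
  · exact fact_f1 hT.1 hs hs' h1 h2 h3 h4 h5 h6 p hp hw p' hp' hw' hA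

end Pool.Agent.H96.TT
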