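import Pool.Agent.H96.TT.Core2

set_option autoImplicit false

namespace Pool.Agent.H96.TT

open SimpleGraph

variable {V : Type} [Fintype V]

/-- The sets of at least four vertices attached to the components. -/
inductive Kind (G T : SimpleGraph V) (c : (G \ T).ConnectedComponent) (S : Finset V) : Prop
  | big : 4 ≤ S.card → (∀ v ∈ S, v ∈ c.supp) → Kind G T c S
  | single (a b : V) (p : T.Walk a b) : Single (G \ T) a b → a ∈ c.supp → b ∈ c.supp →
      p.IsPath → 4 ≤ S.card → (∀ v ∈ S, v ∈ p.support) → Kind G T c S
  | triple (x y z w : V) (p : T.Walk y x) : Triple (G \ T) x y z → x ∈ c.supp → y ∈ c.supp →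
      z ∈ c.supp → p.IsPath → s(y, w) ∈ p.edges → 4 ≤ S.card →
      (∀ v ∈ S, v = x ∨ v = y ∨ v = z ∨ v = w) → Kind G T c S

theorem Kind.card {G T : SimpleGraph V} {c : (G \ T).ConnectedComponent} {S : Finset V}
    (h : Kind G T c S) : 4 ≤ S.card := by
  cases h <;> assumption

theorem Kind.mem {G T : SimpleGraph V} (hT : Opt G T) {c : (G \ T).ConnectedComponent}
    {S : Finset V} (h : Kind G T c S) {v : V} (hv : v ∈ S) (hvs : v ∈ (G \ T).support) :
    v ∈ c.supp := by
  cases h with
  | big _ h2 => exact h2 v hv
  | single a b p hs ha hb hp _ h2 =>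
    rcases fact_b hT hs p hp (h2 v hv) hvs with rfl | rfl
    · exact ha
    · exact hb
  | triple x y z w p hs hx hy hz hp hw _ h2 =>
    rcases h2 v hv with rfl | rfl | rfl | rfl
    · exact hx
    · exact hy
    · exact hz
    · exact absurd hvs (fact_d hT hs p hp hw)

theorem ne_of_supp {H : SimpleGraph V} {c c' : H.ConnectedComponent} (hcc : c ≠ c') {u v : V}
    (hu : u ∈ c.supp) (hv : v ∈ c'.supp) : u ≠ v := by
  rintro rfl
  rw [ConnectedComponent.mem_supp_iff] at hu hv
  exact hcc (hu.symm.trans hv)

/-- The attached sets of different components are disjoint. -/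
theorem Kind.disj {G T : SimpleGraph V} (hT : Opt2 G T) {c c' : (G \ T).ConnectedComponent}
    (hcc : c ≠ c') (hc : c.supp.Nontrivial) (hc' : c'.supp.Nontrivial) {S S' : Finset V}
    (h : Kind G T c S) (h' : Kind G T c' S') : Disjoint S S' := by
  rw [Finset.disjoint_left]
  intro v hv hv'
  by_cases hvs : v ∈ (G \ T).support
  · exact ne_of_supp hcc (h.mem hT.1 hv hvs) (h'.mem hT.1 hv' hvs) rfl
  -- vertices of nontrivial components are not isolated
  have hnt : ∀ e : (G \ T).ConnectedComponent, e.supp.Nontrivial → v ∉ e.supp := by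
    intro e he hve
    obtain ⟨u, hu, huv⟩ := he.exists_ne v
    have h1 : (G \ T).Reachable v u := by
      rw [ConnectedComponent.mem_supp_iff] at hve hu
      exact ConnectedComponent.exact (hve.trans hu.symm)
    exact not_reach_of_closed {v} (by
      rintro x hx y hy
      rw [Set.mem_singleton_iff] at hx
      subst hx
      exact absurd ⟨y, hy⟩ hvs) rfl (by simpa using huv) h1
  cases h with
  | big _ h2 => exact hnt c hc (h2 v hv)
  | single a b p hs ha hb hp _ h2 =>
    cases h' with
    | big _ k2 => exact hnt c' hc' (k2 v hv')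
    | single a' b' p' hs' ha' hb' hp' _ k2 =>
      exact fact_c hT.1 hs hs' (ne_of_supp hcc ha ha') (ne_of_supp hcc ha hb')
        (ne_of_supp hcc hb ha') (ne_of_supp hcc hb hb') p hp p' hp' (h2 v hv) (k2 v hv')
    | triple x' y' z' w' p' hs' hx' hy' hz' hp' hw' _ k2 =>
      rcases k2 v hv' with rfl | rfl | rfl | rfl
      · exact hnt c' hc' hx'
      · exact hnt c' hc' hy'
      · exact hnt c' hc' hz'
      · exact fact_e hT.1 hs' p' hp' hw' hs p hp (h2 _ hv)
  | triple x y z w p hs hx hy hz hp hw _ h2 =>
    rcases h2 v hv with rfl | rfl | rfl | rfl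
    · exact hnt c hc hx
    · exact hnt c hc hy
    · exact hnt c hc hz
    · cases h' with
      | big _ k2 => exact hnt c' hc' (k2 _ hv')
      | single a' b' p' hs' ha' hb' hp' _ k2 =>
        exact fact_e hT.1 hs p hp hw hs' p' hp' (k2 _ hv')
      | triple x' y' z' w' p' hs' hx' hy' hz' hp' hw' _ k2 =>
        rcases k2 _ hv' with rfl | rfl | rfl | rfl
        · exact hnt c' hc' hx'
        · exact hnt c' hc' hy'
        · exact hnt c' hc' hz'
        · exact fact_f hT hs hs' (ne_of_supp hcc hy hx').symm (ne_of_supp hcc hy hy').symm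
            (ne_of_supp hcc hy hz').symm (ne_of_supp hcc hx hx').symm (ne_of_supp hcc hx hy').symm
            (ne_of_supp hcc hx hz').symm (ne_of_supp hcc hx hy') (ne_of_supp hcc hz hy')
            (ne_of_supp hcc hz hx') p hp hw p' hp' hw'

theorem supp_adj {H : SimpleGraph V} {c : H.ConnectedComponent} {u v : V} (hu : u ∈ c.supp)
    (h : H.Adj u v) : v ∈ c.supp := by
  rw [ConnectedComponent.mem_supp_iff] at hu ⊢
  rw [← hu]
  exact ConnectedComponent.sound h.reachable.symm

theorem no_tri {G : SimpleGraph V} (hG : G.CliqueFree 3) {a b c : V} (h1 : G.Adj a b)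
    (h2 : G.Adj b c) (h3 : G.Adj a c) : False := by
  classical
  exact hG {a, b, c} (is3Clique_triple_iff.2 ⟨h1, h3, h2⟩)

/-- Every component has an attached set. -/
theorem exists_kind {G T : SimpleGraph V} (hG : G.CliqueFree 3) (hA : Adm G T)
    (c : (G \ T).ConnectedComponent) (hc : c.supp.Nontrivial) : ∃ S : Finset V, Kind G T c S := by
  classical
  obtain ⟨v₀, hv₀, v₁, hv₁, hne⟩ := hc
  have hle : ∀ {a b : V}, (G \ T).Adj a b → G.Adj a b := fun h => ((sdiff_adj ..).1 h).1
  have hnT : ∀ {a b : V}, (G \ T).Adj a b → ¬ T.Adj a b := fun h => ((sdiff_adj ..).1 h).2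
  -- an edge of the component
  have hadj : ∃ a b, a ∈ c.supp ∧ (G \ T).Adj a b := by
    by_contra hcon
    push Not at hcon
    have h1 : (G \ T).Reachable v₀ v₁ := by
      rw [ConnectedComponent.mem_supp_iff] at hv₀ hv₁
      exact ConnectedComponent.exact (hv₀.trans hv₁.symm)
    exact not_reach_of_closed {v₀} (by
      rintro x hx y hy
      rw [Set.mem_singleton_iff] at hx
      subst hx
      exact absurd hy (hcon _ _ hv₀)) rfl (by simpa using hne.symm) h1
  by_cases h2 : ∃ y ∈ c.supp, ∃ x z, x ≠ z ∧ (G \ T).Adj y x ∧ (G \ T).Adj y z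
  · obtain ⟨y, hy, x, z, hxz, hyx, hyz⟩ := h2
    have hx := supp_adj hy hyx
    have hz := supp_adj hy hyz
    have hxz' : ¬ G.Adj x z := fun h => no_tri hG (hle hyx) h (hle hyz)
    by_cases h3 : Triple (G \ T) x y z
    · -- a path with three vertices
      obtain ⟨p, hp⟩ := (hA.2.1.connected.preconnected y x).exists_isPath
      cases p with
      | nil => exact absurd hyx (G \ T).irrefl
      | cons hyw q =>
        rename_i w
        have hwx : w ≠ x := fun h => hnT hyx (h ▸ hyw)
        have hwz : w ≠ z := fun h => hnT hyz (h ▸ hyw)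
        refine ⟨{x, y, z, w}, Kind.triple x y z w (Walk.cons hyw q) h3 hx hy hz hp (by simp) ?_
          (by simp)⟩
        rw [Finset.card_insert_of_notMem, Finset.card_insert_of_notMem, Finset.card_pair hwz.symm]
        · simp [hyz.ne, hyw.ne]
        · simp [hyx.ne.symm, hxz, hwx.symm]
    · -- a fourth vertex
      have h4 : ∃ w ∈ c.supp, w ≠ x ∧ w ≠ y ∧ w ≠ z := by
        by_contra hcon
        push Not at hcon
        apply h3
        refine ⟨hyx, hyz, hxz, ?_, ?_, ?_⟩
        · intro w hw
          by_contra h5
          have h6 := hcon w (supp_adj hx hw) hw.ne.symm h5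
          subst h6
          exact hxz' (hle hw)
        · intro w hw
          by_contra h5
          have h6 : w ≠ x := by
            rintro rfl
            exact hxz' (hle hw).symm
          have h7 := hcon w (supp_adj hz hw) h6 h5
          exact hw.ne h7.symm
        · intro w hw
          by_contra h5
          push Not at h5
          exact h5.2 (hcon w (supp_adj hy hw) h5.1 hw.ne.symm)
      obtain ⟨w, hw, h5, h6, h7⟩ := h4
      refine ⟨{x, y, z, w}, Kind.big ?_ ?_⟩
      · rw [Finset.card_insert_of_notMem, Finset.card_insert_of_notMem, Finset.card_pair h7.symm]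
        · simp [hyz.ne, h6.symm]
        · simp [hyx.ne.symm, hxz, h5.symm]
      · intro v hv
        simp only [Finset.mem_insert, Finset.mem_singleton] at hv
        rcases hv with rfl | rfl | rfl | rfl <;> assumption
  · -- a single edge
    push Not at h2
    obtain ⟨a, b, ha, hab⟩ := hadj
    have hb := supp_adj ha hab
    have hs : Single (G \ T) a b := by
      refine ⟨hab, fun w hw => ?_, fun w hw => ?_⟩
      · by_contra h
        exact h2 a ha w b h hw hab
      · by_contra h
        exact h2 b hb w a h hw hab.symm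
    obtain ⟨p, hp⟩ := (hA.2.1.connected.preconnected a b).exists_isPath
    refine ⟨p.support.toFinset, Kind.single a b p hs ha hb hp ?_ (by simp)⟩
    rw [List.toFinset_card_of_nodup hp.support_nodup, Walk.length_support]
    cases p with
    | nil => exact absurd hab (G \ T).irrefl
    | cons h1 q =>
      cases q with
      | nil => exact absurd h1 (hnT hab)
      | cons h2' r =>
        cases r with
        | nil => exact (no_tri hG (hA.1 h1) (hA.1 h2') (hle hab)).elim
        | cons h3 r => simp [Walk.length_cons]

theorem core : S_core := by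
  classical
  intro V _ G T hG hT
  let ι := {c : (G \ T).ConnectedComponent // c.supp.Nontrivial}
  haveI : Finite ι := by
    haveI : Finite (G \ T).ConnectedComponent := inferInstance
    exact Subtype.finite
  haveI : Fintype ι := Fintype.ofFinite ι
  choose S hS using fun c : ι => exists_kind hG hT.1.1 c.1 c.2
  have hdis : ∀ c ∈ (Finset.univ : Finset ι), ∀ c' ∈ (Finset.univ : Finset ι), c ≠ c' →
      Disjoint (S c) (S c') := by
    intro c _ c' _ h
    exact Kind.disj hT (fun h' => h (Subtype.ext h')) c.2 c'.2 (hS c) (hS c')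
  have h1 : ((Finset.univ : Finset ι).biUnion S).card = ∑ c, (S c).card :=
    Finset.card_biUnion hdis
  have h2 : ((Finset.univ : Finset ι).biUnion S).card ≤ Fintype.card V := Finset.card_le_univ _
  have h3 : ∑ c : ι, 4 ≤ ∑ c, (S c).card := Finset.sum_le_sum fun c _ => (hS c).card
  rw [Finset.sum_const, Finset.card_univ, smul_eq_mul] at h3
  have h4 : nc (G \ T) = Fintype.card ι := by
    unfold nc
    rw [Nat.card_eq_fintype_card]
  rw [h4]
  omega

end Pool.Agent.H96.TT
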