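import Pool.Agent.H96.TT.Stm

/-!
# The spanning tree and the components of the complementary forest
-/

set_option autoImplicit false

namespace Pool.Agent.H96.TT

open SimpleGraph

/-- the subgraph given by `T` -/
def dec_none {V : Type} {G T : SimpleGraph V} (h : T ≤ G) : G.Subgraph where
  verts := Set.univ
  Adj := T.Adj
  adj_sub := fun hab => h hab
  edge_vert := fun _ => Set.mem_univ _
  symm := ⟨fun _ _ hab => T.adj_symm hab⟩

/-- the subgraph given by a component of `H` -/
def dec_some {V : Type} {G H : SimpleGraph V} (h : H ≤ G) (c : H.ConnectedComponent) :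
    G.Subgraph where
  verts := c.supp
  Adj := fun a b => H.Adj a b ∧ a ∈ c.supp
  adj_sub := fun hab => h hab.1
  edge_vert := fun hab => hab.2
  symm := ⟨fun a b hab => ⟨hab.1.symm, by
    have h1 := hab.2
    rw [ConnectedComponent.mem_supp_iff] at h1 ⊢
    rw [← h1]
    exact ConnectedComponent.sound hab.1.symm.reachable⟩⟩

theorem dec_none_tree {V : Type} {G T : SimpleGraph V} (h : T ≤ G) (hT : T.IsTree) :
    (dec_none h).coe.IsTree := by
  have e : (dec_none h).coe = T.induce Set.univ := by
    ext x y
    exact Iff.rfl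
  rw [e]
  exact (SimpleGraph.induceUnivIso T).isTree_iff.2 hT

theorem dec_some_tree {V : Type} {G H : SimpleGraph V} (h : H ≤ G) (hH : H.IsAcyclic)
    (c : H.ConnectedComponent) : (dec_some h c).coe.IsTree := by
  have e : (dec_some h c).coe = c.toSimpleGraph := by
    ext x y
    constructor
    · intro hxy
      exact hxy.1
    · intro hxy
      exact ⟨hxy, x.2⟩
  rw [e]
  exact hH.isTree_connectedComponent c

theorem t_dec : S_dec := by
  classical
  intro V _ G T hA
  obtain ⟨hTG, hT, hH⟩ := hA
  obtain ⟨H, hHdef⟩ : ∃ H, H = G \ T := ⟨_, rfl⟩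
  rw [← hHdef] at hH ⊢
  have hHG : H ≤ G := by rw [hHdef]; exact sdiff_le
  have hHT : ∀ a b, H.Adj a b → ¬ T.Adj a b := by
    intro a b hab
    rw [hHdef] at hab
    exact hab.2
  have hGTH : ∀ a b, G.Adj a b → T.Adj a b ∨ H.Adj a b := by
    intro a b hab
    by_cases h : T.Adj a b
    · exact Or.inl h
    · refine Or.inr ?_
      rw [hHdef]
      exact ⟨hab, h⟩
  obtain ⟨e⟩ : Nonempty (Fin (nc H + 1) ≃
      Option {c : H.ConnectedComponent // c.supp.Nontrivial}) :=
    ⟨(finSuccEquiv _).trans (Equiv.optionCongr (Finite.equivFin _).symm)⟩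
  obtain ⟨D, hDn, hDs⟩ : ∃ D : Option {c : H.ConnectedComponent // c.supp.Nontrivial} → G.Subgraph,
      D none = dec_none hTG ∧ ∀ c, D (some c) = dec_some hHG c.1 :=
    ⟨fun o => o.elim (dec_none hTG) fun c => dec_some hHG c.1, rfl, fun c => rfl⟩
  have hcc : ∀ (c c' : {c : H.ConnectedComponent // c.supp.Nontrivial}) (a : V),
      a ∈ c.1.supp → a ∈ c'.1.supp → c = c' := by
    intro c c' a h1 h2
    rw [ConnectedComponent.mem_supp_iff] at h1 h2
    exact Subtype.ext (h1.symm.trans h2)
  have hdis : ∀ o o', o ≠ o' → ∀ a b, (D o).Adj a b → ¬ (D o').Adj a b := by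
    intro o o' hoo a b h1 h2
    cases o with
    | none =>
      cases o' with
      | none => exact hoo rfl
      | some c =>
        rw [hDn] at h1
        rw [hDs] at h2
        exact hHT a b h2.1 h1
    | some c =>
      cases o' with
      | none =>
        rw [hDn] at h2
        rw [hDs] at h1
        exact hHT a b h1.1 h2
      | some c' =>
        rw [hDs] at h1 h2
        exact hoo (congrArg some (hcc c c' a h1.2 h2.2))
  refine ⟨fun i => D (e i), ?_, ?_, ?_⟩
  · intro i
    show (D (e i)).coe.IsTree
    cases h : e i with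
    | none =>
      rw [hDn]
      exact dec_none_tree hTG hT
    | some c =>
      rw [hDs]
      exact dec_some_tree hHG hH c.1
  · intro i j hij
    have hij' : e i ≠ e j := fun h => hij (e.injective h)
    rw [Set.disjoint_left]
    intro x
    induction x using Sym2.ind with
    | _ a b =>
      intro h1 h2
      exact hdis _ _ hij' a b ((D (e i)).mem_edgeSet.1 h1) ((D (e j)).mem_edgeSet.1 h2)
  · rw [eq_top_iff]
    constructor
    · intro a _
      rw [Subgraph.verts_iSup]
      refine Set.mem_iUnion.2 ⟨e.symm none, ?_⟩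
      rw [e.apply_symm_apply, hDn]
      exact Set.mem_univ a
    · intro a b hab
      rw [Subgraph.iSup_adj]
      have hab' : G.Adj a b := hab
      rcases hGTH a b hab' with h | h
      · refine ⟨e.symm none, ?_⟩
        rw [e.apply_symm_apply, hDn]
        exact h
      · have ha : a ∈ (H.connectedComponentMk a).supp := rfl
        have hb : b ∈ (H.connectedComponentMk a).supp :=
          ConnectedComponent.sound h.symm.reachable
        have hn : (H.connectedComponentMk a).supp.Nontrivial := ⟨a, ha, b, hb, h.ne⟩
        refine ⟨e.symm (some ⟨_, hn⟩), ?_⟩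
        rw [e.apply_symm_apply, hDs]
        exact ⟨h, ha⟩

end Pool.Agent.H96.TT
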