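import Pool.Agent.H96.TT.Core3

set_option autoImplicit false

namespace Pool.Agent.H96.TT

open SimpleGraph

theorem arb2 : S_arb2 := by
  intro V _ G F₁ F₂ hG h1 h2 hGF
  have hle : F₁ ≤ G := hGF ▸ le_sup_left
  obtain ⟨T, h3, h4, h5⟩ := hG.exists_isTree_le_of_le_of_isAcyclic hle h1
  refine ⟨T, h4, h5, h2.anti ?_⟩
  intro a b hab
  rw [sdiff_adj] at hab
  have h6 : G.Adj a b := hab.1
  rw [hGF, sup_adj] at h6
  rcases h6 with h6 | h6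
  · exact absurd (h3 h6) hab.2
  · exact h6

theorem exists_opt2 {V : Type} [Fintype V] {G : SimpleGraph V} (h : ∃ T, Adm G T) :
    ∃ T, Opt2 G T := by
  classical
  obtain ⟨T1, h1, h2⟩ := Set.exists_min_image {T | Adm G T} (fun T => sz (G \ T))
    (Set.toFinite _) h
  have h3 : Opt G T1 := ⟨h1, h2⟩
  obtain ⟨T2, h4, h5⟩ := Set.exists_max_image {T | Opt G T} (fun T => sq (G \ T))
    (Set.toFinite _) ⟨T1, h3⟩
  exact ⟨T2, h4, h5⟩

/-- The general upper bound, from the decomposition statement. -/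
theorem upper (hdec : S_dec) {V : Type} [Fintype V] (G : SimpleGraph V) (hG : G.Connected)
    (h3 : G.CliqueFree 3) (h : ∃ F₁ F₂ : SimpleGraph V, F₁.IsAcyclic ∧ F₂.IsAcyclic ∧ G = F₁ ⊔ F₂) :
    ∃ r, r ≤ Fintype.card V / 4 + 1 ∧ ∃ D : Fin r → G.Subgraph, IsTreeDecomp G D := by
  obtain ⟨F₁, F₂, h4, h5, h6⟩ := h
  obtain ⟨T, hT⟩ := exists_opt2 (arb2 V G F₁ F₂ hG h4 h5 h6)
  refine ⟨_, ?_, hdec V G T hT.1.1⟩
  have h7 := core V G T h3 hT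
  omega

theorem final (harb : S_arb1) (hdec : S_dec) (hlb1 : S_lb1) (hlb2 : S_lb2) (hlb3 : S_lb3) :
    (∀ n : ℕ, 1 ≤ n → IsGreatest {k | ∃ G : SimpleGraph (Fin n), G.Connected ∧ G.CliqueFree 3 ∧
      Pool.Agent.H239R2.Planar.HasStraightLineDrawing G ∧ thickness G = k} (n / 4 + 1)) ∧
    (∀ (V : Type) [Fintype V] (G : SimpleGraph V), G.Connected → G.CliqueFree 3 →
      Pool.Agent.H239R2.Planar.IsPlanar G → thickness G ≤ Fintype.card V / 4 + 1) ∧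
    (∀ (V : Type) [Fintype V] (G F₁ F₂ : SimpleGraph V), G.Connected → G.CliqueFree 3 →
      F₁.IsAcyclic → F₂.IsAcyclic → G = F₁ ⊔ F₂ → thickness G ≤ Fintype.card V / 4 + 1) := by
  have hup : ∀ (V : Type) [Fintype V] (G F₁ F₂ : SimpleGraph V), G.Connected → G.CliqueFree 3 →
      F₁.IsAcyclic → F₂.IsAcyclic → G = F₁ ⊔ F₂ → thickness G ≤ Fintype.card V / 4 + 1 := by
    intro V _ G F₁ F₂ h1 h2 h3 h4 h5
    obtain ⟨r, hr, D, hD⟩ := upper hdec G h1 h2 ⟨F₁, F₂, h3, h4, h5⟩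
    exact (Nat.sInf_le (show r ∈ {r | ∃ D : Fin r → G.Subgraph, IsTreeDecomp G D} from
      ⟨D, hD⟩)).trans hr
  refine ⟨?_, ?_, hup⟩
  · intro n hn
    constructor
    · obtain ⟨h1, h2, h3⟩ := hlb2 n hn
      refine ⟨ex n, h1, h2, hlb3 n, ?_⟩
      obtain ⟨F₁, F₂, h4, h5, h6⟩ := harb (Fin n) (ex n) h2 (Or.inr (hlb3 n))
      apply le_antisymm
      · simpa using hup (Fin n) (ex n) F₁ F₂ h1 h2 h4 h5 h6
      · obtain ⟨r, -, hr⟩ := upper hdec (ex n) h1 h2 ⟨F₁, F₂, h4, h5, h6⟩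
        have hne : {r | ∃ D : Fin r → (ex n).Subgraph, IsTreeDecomp (ex n) D}.Nonempty := ⟨r, hr⟩
        obtain ⟨D, hD⟩ := Nat.sInf_mem hne
        exact hlb1 n h3 _ D hD
    · rintro k ⟨G, h1, h2, h3, rfl⟩
      obtain ⟨F₁, F₂, h4, h5, h6⟩ := harb (Fin n) G h2 (Or.inr h3)
      simpa using hup (Fin n) G F₁ F₂ h1 h2 h4 h5 h6
  · intro V _ G h1 h2 h3
    obtain ⟨F₁, F₂, h4, h5, h6⟩ := harb V G h2 (Or.inl h3)
    exact hup V G F₁ F₂ h1 h2 h4 h5 h6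

end Pool.Agent.H96.TT
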