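import Pool.Agent.H96.TT.Stm

/-!
# TT-LB1: the counting lower bound (helper264 for helper96)
-/

set_option autoImplicit false

namespace Pool.Agent.H96.TT

open SimpleGraph

open scoped Classical in
/-- the number of trees at a vertex -/
noncomputable def lb1_t {V : Type} {G : SimpleGraph V} {r : ℕ} (D : Fin r → G.Subgraph) (v : V) : ℕ :=
  (Finset.univ.filter (fun i => v ∈ (D i).verts)).card

open scoped Classical in
theorem lb1_tree {n : ℕ} {G : SimpleGraph (Fin n)} (H : G.Subgraph) (h : H.coe.IsTree) :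
    (Finset.univ.filter (fun v => v ∈ H.verts)).card =
      (Finset.univ.filter (fun e => e ∈ H.edgeSet)).card + 1 := by
  have h1 := h.card_edgeFinset
  have h2 : Fintype.card H.verts = (Finset.univ.filter (fun v => v ∈ H.verts)).card := by
    rw [← Fintype.card_subtype]
  have h3 : (Finset.univ.filter (fun e => e ∈ H.edgeSet)) =
      H.coe.edgeFinset.map ⟨Sym2.map Subtype.val, Sym2.map.injective Subtype.val_injective⟩ := by
    ext e
    rw [Finset.mem_filter, Finset.mem_map]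
    have h4 := Subgraph.image_coe_edgeSet_coe H
    constructor
    · rintro ⟨-, he⟩
      rw [← h4] at he
      obtain ⟨x, hx, hxe⟩ := he
      exact ⟨x, mem_edgeFinset.2 hx, hxe⟩
    · rintro ⟨x, hx, hxe⟩
      refine ⟨Finset.mem_univ _, ?_⟩
      rw [← h4]
      exact ⟨x, mem_edgeFinset.1 hx, hxe⟩
  rw [h3, Finset.card_map, h1, h2]

theorem lb1_exists {V : Type} {G : SimpleGraph V} {r : ℕ} {D : Fin r → G.Subgraph}
    (hD : IsTreeDecomp G D) {u v : V} (h : G.Adj u v) : ∃ i, (D i).Adj u v := by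
  have h1 : (⨆ i, D i).Adj u v := by
    rw [hD.2.2]
    exact h
  exact Subgraph.iSup_adj.1 h1

theorem lb1_pos {V : Type} {G : SimpleGraph V} {r : ℕ} {D : Fin r → G.Subgraph}
    (hD : IsTreeDecomp G D) (v : V) : 1 ≤ lb1_t D v := by
  classical
  have h1 : v ∈ (⨆ i, D i).verts := by
    rw [hD.2.2]
    exact Set.mem_univ v
  rw [Subgraph.verts_iSup, Set.mem_iUnion] at h1
  obtain ⟨i, hi⟩ := h1
  unfold lb1_t
  rw [Nat.one_le_iff_ne_zero, Ne, Finset.card_eq_zero]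
  intro h2
  have : i ∈ Finset.univ.filter (fun i => v ∈ (D i).verts) := by simp [hi]
  rw [h2] at this
  exact absurd this (Finset.notMem_empty _)

theorem lb1_unique {V : Type} {G : SimpleGraph V} {r : ℕ} {D : Fin r → G.Subgraph} {v : V}
    (h : lb1_t D v = 1) {i j : Fin r} (hi : v ∈ (D i).verts) (hj : v ∈ (D j).verts) : i = j := by
  classical
  unfold lb1_t at h
  rw [Finset.card_eq_one] at h
  obtain ⟨a, ha⟩ := h
  have h1 : i ∈ Finset.univ.filter (fun i => v ∈ (D i).verts) := by simp [hi]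
  have h2 : j ∈ Finset.univ.filter (fun i => v ∈ (D i).verts) := by simp [hj]
  rw [ha, Finset.mem_singleton] at h1 h2
  rw [h1, h2]

/-- three consecutive vertices of a four-cycle cannot be in one tree each -/
theorem lb1_cycle {V : Type} {G : SimpleGraph V} {r : ℕ} {D : Fin r → G.Subgraph}
    (hD : IsTreeDecomp G D) {x y z w : V} (hxy : G.Adj x y) (hyz : G.Adj y z) (hzw : G.Adj z w)
    (hwx : G.Adj w x) (hxz : x ≠ z) (hyw : y ≠ w) (tx : lb1_t D x = 1) (ty : lb1_t D y = 1)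
    (tz : lb1_t D z = 1) : False := by
  classical
  obtain ⟨i, hi⟩ := lb1_exists hD hxy
  obtain ⟨j, hj⟩ := lb1_exists hD hyz
  obtain ⟨k, hk⟩ := lb1_exists hD hzw
  obtain ⟨l, hl⟩ := lb1_exists hD hwx
  have e1 : i = j := lb1_unique ty hi.snd_mem hj.fst_mem
  have e2 : j = k := lb1_unique tz hj.snd_mem hk.fst_mem
  have e3 : i = l := lb1_unique tx hi.fst_mem hl.snd_mem
  subst e1
  subst e2
  subst e3
  have hac := (hD.1 i).isAcyclic
  let X : (D i).verts := ⟨x, hi.fst_mem⟩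
  let Y : (D i).verts := ⟨y, hi.snd_mem⟩
  let Z : (D i).verts := ⟨z, hj.snd_mem⟩
  let W : (D i).verts := ⟨w, hl.fst_mem⟩
  have a1 : (D i).coe.Adj X Y := hi
  have a2 : (D i).coe.Adj Y Z := hj
  have a3 : (D i).coe.Adj X W := hl.symm
  have a4 : (D i).coe.Adj W Z := hk.symm
  have nXY : X ≠ Y := a1.ne
  have nYZ : Y ≠ Z := a2.ne
  have nXW : X ≠ W := a3.ne
  have nWZ : W ≠ Z := a4.ne
  have nXZ : X ≠ Z := fun h => hxz (congrArg Subtype.val h)
  have nYW : Y ≠ W := fun h => hyw (congrArg Subtype.val h)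
  let p : (D i).coe.Path X Z := ⟨Walk.cons a1 (Walk.cons a2 Walk.nil), by
    simp [nXY, nYZ, nXZ]⟩
  let q : (D i).coe.Path X Z := ⟨Walk.cons a3 (Walk.cons a4 Walk.nil), by
    simp [nXW, nWZ, nXZ]⟩
  have hpq : p = q := (isAcyclic_iff_subsingleton_path.1 hac X Z).elim p q
  have h1 : p.1.support = q.1.support := by rw [hpq]
  have h2 : Y ∈ q.1.support := by
    rw [← h1]
    simp [p]
  have h3 : Y = X ∨ Y = W ∨ Y = Z := by
    simpa [q] using h2
  rcases h3 with h3 | h3 | h3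
  · exact nXY h3.symm
  · exact nYW h3
  · exact nYZ h3

/-- the double counting -/
theorem lb1_count {n : ℕ} {G : SimpleGraph (Fin n)} {r : ℕ} {D : Fin r → G.Subgraph}
    (hD : IsTreeDecomp G D) : ∑ v, lb1_t D v = Nat.card G.edgeSet + r := by
  classical
  have h1 : ∑ v, lb1_t D v = ∑ i, (Finset.univ.filter (fun v => v ∈ (D i).verts)).card := by
    unfold lb1_t
    simp_rw [Finset.card_filter]
    exact Finset.sum_comm
  have h2 : ∑ i, (Finset.univ.filter (fun v => v ∈ (D i).verts)).card =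
      ∑ i, ((Finset.univ.filter (fun e => e ∈ (D i).edgeSet)).card + 1) :=
    Finset.sum_congr rfl fun i _ => lb1_tree (D i) (hD.1 i)
  rw [h1, h2, Finset.sum_add_distrib]
  simp only [Finset.sum_const, Finset.card_univ, Fintype.card_fin, smul_eq_mul, mul_one]
  congr 1
  rw [← Finset.card_biUnion]
  · have h3 : (Finset.univ.biUnion fun i => Finset.univ.filter (fun e => e ∈ (D i).edgeSet)) =
        G.edgeFinset := by
      ext e
      rw [Finset.mem_biUnion, mem_edgeFinset]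
      have h4 : (⨆ i, D i).edgeSet = G.edgeSet := by
        rw [hD.2.2, Subgraph.edgeSet_top]
      rw [← h4, Subgraph.edgeSet_iSup, Set.mem_iUnion]
      simp
    rw [h3, Nat.card_eq_fintype_card, ← edgeFinset_card]
  · intro i _ j _ hij
    rw [Function.onFun, Finset.disjoint_left]
    intro e he he'
    rw [Finset.mem_filter] at he he'
    exact Set.disjoint_left.1 (hD.2.1 i j hij) he.2 he'.2

theorem lb1_adj {n : ℕ} (u v : Fin n) (h : R n u v) : (ex n).Adj u v := by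
  unfold ex
  rw [fromRel_adj]
  refine ⟨?_, Or.inl h⟩
  intro e
  have := h.1
  rw [e] at this
  exact lt_irrefl _ this

theorem lb1_block {n r : ℕ} {D : Fin r → (ex n).Subgraph} (hD : IsTreeDecomp (ex n) D)
    (j : ℕ) (hj : j < n / 4) (h0 : 4 * j < n) (h1 : 4 * j + 1 < n) (h2 : 4 * j + 2 < n)
    (h3 : 4 * j + 3 < n) :
    6 ≤ lb1_t D ⟨4 * j, h0⟩ + lb1_t D ⟨4 * j + 1, h1⟩ + lb1_t D ⟨4 * j + 2, h2⟩ +
      lb1_t D ⟨4 * j + 3, h3⟩ := by
  have a01 : (ex n).Adj ⟨4 * j, h0⟩ ⟨4 * j + 1, h1⟩ := lb1_adj _ _ (by unfold R; dsimp only; omega)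
  have a12 : (ex n).Adj ⟨4 * j + 1, h1⟩ ⟨4 * j + 2, h2⟩ :=
    lb1_adj _ _ (by unfold R; dsimp only; omega)
  have a23 : (ex n).Adj ⟨4 * j + 2, h2⟩ ⟨4 * j + 3, h3⟩ :=
    lb1_adj _ _ (by unfold R; dsimp only; omega)
  have a03 : (ex n).Adj ⟨4 * j, h0⟩ ⟨4 * j + 3, h3⟩ := lb1_adj _ _ (by unfold R; dsimp only; omega)
  have n02 : (⟨4 * j, h0⟩ : Fin n) ≠ ⟨4 * j + 2, h2⟩ := by
    rw [Ne, Fin.mk.injEq]; omega
  have n13 : (⟨4 * j + 1, h1⟩ : Fin n) ≠ ⟨4 * j + 3, h3⟩ := by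
    rw [Ne, Fin.mk.injEq]; omega
  have p0 := lb1_pos hD ⟨4 * j, h0⟩
  have p1 := lb1_pos hD ⟨4 * j + 1, h1⟩
  have p2 := lb1_pos hD ⟨4 * j + 2, h2⟩
  have p3 := lb1_pos hD ⟨4 * j + 3, h3⟩
  have c1 := lb1_cycle hD a01 a12 a23 a03.symm n02 n13
  have c2 := lb1_cycle hD a12 a23 a03.symm a01 n13 n02.symm
  have c3 := lb1_cycle hD a23 a03.symm a01 a12 n02.symm n13.symm
  have c4 := lb1_cycle hD a03.symm a01 a12 a23 n13.symm n02
  by_contra hcon
  have hc : (lb1_t D ⟨4 * j, h0⟩ = 1 ∧ lb1_t D ⟨4 * j + 1, h1⟩ = 1 ∧ lb1_t D ⟨4 * j + 2, h2⟩ = 1) ∨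
      (lb1_t D ⟨4 * j + 1, h1⟩ = 1 ∧ lb1_t D ⟨4 * j + 2, h2⟩ = 1 ∧ lb1_t D ⟨4 * j + 3, h3⟩ = 1) ∨
      (lb1_t D ⟨4 * j + 2, h2⟩ = 1 ∧ lb1_t D ⟨4 * j + 3, h3⟩ = 1 ∧ lb1_t D ⟨4 * j, h0⟩ = 1) ∨
      (lb1_t D ⟨4 * j + 3, h3⟩ = 1 ∧ lb1_t D ⟨4 * j, h0⟩ = 1 ∧ lb1_t D ⟨4 * j + 1, h1⟩ = 1) := by
    omega
  rcases hc with ⟨x, y, z⟩ | ⟨x, y, z⟩ | ⟨x, y, z⟩ | ⟨x, y, z⟩
  · exact c1 x y z
  · exact c2 x y z
  · exact c3 x y z
  · exact c4 x y z

theorem lb1_sum {n : ℕ} (f : ℕ → ℕ) (hf : ∀ v < n, 1 ≤ f v)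
    (h : ∀ j < n / 4, 6 ≤ f (4 * j) + f (4 * j + 1) + f (4 * j + 2) + f (4 * j + 3)) :
    n + 2 * (n / 4) ≤ ∑ v ∈ Finset.range n, f v := by
  have h1 : ∀ q, q ≤ n / 4 → 6 * q ≤ ∑ v ∈ Finset.range (4 * q), f v := by
    intro q
    induction q with
    | zero => intro _; simp
    | succ q ih =>
      intro hq
      have h2 := ih (by omega)
      have h3 := h q (by omega)
      rw [show 4 * (q + 1) = 4 * q + 1 + 1 + 1 + 1 by ring, Finset.sum_range_succ,
        Finset.sum_range_succ, Finset.sum_range_succ, Finset.sum_range_succ]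
      omega
  have h2 : ∀ k, 4 * (n / 4) + k ≤ n → 6 * (n / 4) + k ≤ ∑ v ∈ Finset.range (4 * (n / 4) + k), f v := by
    intro k
    induction k with
    | zero => intro _; simpa using h1 (n / 4) le_rfl
    | succ k ih =>
      intro hk
      have h3 := ih (by omega)
      have h4 := hf (4 * (n / 4) + k) (by omega)
      rw [← add_assoc (4 * (n / 4)), Finset.sum_range_succ]
      omega
  have h3 := h2 (n - 4 * (n / 4)) (by omega)
  rw [show 4 * (n / 4) + (n - 4 * (n / 4)) = n by omega] at h3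
  omega

theorem t_lb1 : S_lb1 := by
  intro n hn r D hD
  have h1 := lb1_count hD
  have h2 : ∑ v, lb1_t D v =
      ∑ v ∈ Finset.range n, (if h : v < n then lb1_t D ⟨v, h⟩ else 0) := by
    rw [← Fin.sum_univ_eq_sum_range (fun v => if h : v < n then lb1_t D ⟨v, h⟩ else 0) n]
    refine Finset.sum_congr rfl fun v _ => ?_
    rw [dif_pos v.2]
  have h3 : n + 2 * (n / 4) ≤ ∑ v ∈ Finset.range n, (if h : v < n then lb1_t D ⟨v, h⟩ else 0) := by
    refine lb1_sum _ ?_ ?_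
    · intro v hv
      rw [dif_pos hv]
      exact lb1_pos hD _
    · intro j hj
      have q0 : 4 * j < n := by omega
      have q1 : 4 * j + 1 < n := by omega
      have q2 : 4 * j + 2 < n := by omega
      have q3 : 4 * j + 3 < n := by omega
      rw [dif_pos q0, dif_pos q1, dif_pos q2, dif_pos q3]
      exact lb1_block hD j hj q0 q1 q2 q3
  omega

end Pool.Agent.H96.TT
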