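import Mathlib
import Pool.Graph.R_seed8.H239R2.Cover.PlanarDefs

/-!
# Tree thickness of planar triangle-free graphs: definitions and statements
-/

set_option autoImplicit false

namespace Pool.Agent.H96.TT

open SimpleGraph

/-- `D` decomposes `G` into `r` trees: subgraphs of `G`, each of them a tree, pairwise
edge-disjoint, whose union is `G`. -/
def IsTreeDecomp {V : Type} (G : SimpleGraph V) {r : ℕ} (D : Fin r → G.Subgraph) : Prop :=
  (∀ i, (D i).coe.IsTree) ∧ (∀ i j, i ≠ j → Disjoint (D i).edgeSet (D j).edgeSet) ∧ ⨆ i, D i = ⊤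

/-- The tree thickness: the least number of trees in a decomposition. -/
noncomputable def thickness {V : Type} (G : SimpleGraph V) : ℕ :=
  sInf {r | ∃ D : Fin r → G.Subgraph, IsTreeDecomp G D}

/-- `T` is a spanning tree of `G` whose complement in `G` is a forest. -/
def Adm {V : Type} (G T : SimpleGraph V) : Prop := T ≤ G ∧ T.IsTree ∧ (G \ T).IsAcyclic

/-- The number of components with at least one edge. -/
noncomputable def nc {V : Type} (H : SimpleGraph V) : ℕ :=
  Nat.card {c : H.ConnectedComponent // c.supp.Nontrivial}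

/-- The number of vertices which are not isolated. -/
noncomputable def sz {V : Type} [Fintype V] (H : SimpleGraph V) : ℕ := H.support.ncard

/-- The sum of the squares of the degrees. -/
noncomputable def sq {V : Type} [Fintype V] (H : SimpleGraph V) : ℕ :=
  ∑ v, (H.neighborSet v).ncard ^ 2

/-- `T` minimises the number of vertices of the complementary forest. -/
def Opt {V : Type} [Fintype V] (G T : SimpleGraph V) : Prop :=
  Adm G T ∧ ∀ T', Adm G T' → sz (G \ T) ≤ sz (G \ T')

/-- `T` also maximises the sum of the squares of the degrees of the complementary forest. -/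
def Opt2 {V : Type} [Fintype V] (G T : SimpleGraph V) : Prop :=
  Opt G T ∧ ∀ T', Opt G T' → sq (G \ T') ≤ sq (G \ T)

/-- Exchange of the edge `uv` of `T` for `ab`. -/
def sw {V : Type} (T : SimpleGraph V) (a b u v : V) : SimpleGraph V := (T \ edge u v) ⊔ edge a b

/-- The relation of the example: `n/4` four-cycles in a row, connected by edges, and at most
three pendant vertices at the vertex `0`. -/
def R (n u v : ℕ) : Prop :=
  u < v ∧ ((v < 4 * (n / 4) ∧ ((v / 4 = u / 4 ∧ (v = u + 1 ∨ v = u + 3)) ∨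
    (v = u + 2 ∧ v % 4 = 0))) ∨ (4 * (n / 4) ≤ v ∧ u = 0))

/-- The example. -/
def ex (n : ℕ) : SimpleGraph (Fin n) := SimpleGraph.fromRel fun u v => R n u v

/-! ## statements -/

/-- TT-ARB1 -/
def S_arb1 : Prop := ∀ (V : Type) [Fintype V] (G : SimpleGraph V), G.CliqueFree 3 →
  (Pool.Agent.H239R2.Planar.IsPlanar G ∨ Pool.Agent.H239R2.Planar.HasStraightLineDrawing G) →
  ∃ F₁ F₂ : SimpleGraph V, F₁.IsAcyclic ∧ F₂.IsAcyclic ∧ G = F₁ ⊔ F₂

/-- TT-ARB2 -/
def S_arb2 : Prop := ∀ (V : Type) [Fintype V] (G F₁ F₂ : SimpleGraph V), G.Connected →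
  F₁.IsAcyclic → F₂.IsAcyclic → G = F₁ ⊔ F₂ → ∃ T, Adm G T

/-- TT-DEC -/
def S_dec : Prop := ∀ (V : Type) [Fintype V] (G T : SimpleGraph V), Adm G T →
  ∃ D : Fin (nc (G \ T) + 1) → G.Subgraph, IsTreeDecomp G D

/-- TT-CORE -/
def S_core : Prop := ∀ (V : Type) [Fintype V] (G T : SimpleGraph V), G.CliqueFree 3 → Opt2 G T →
  4 * nc (G \ T) ≤ Fintype.card V

/-- TT-LB1: the counting bound in the example. -/
def S_lb1 : Prop := ∀ n : ℕ, Nat.card (ex n).edgeSet + 1 = n + n / 4 →
  ∀ (r : ℕ) (D : Fin r → (ex n).Subgraph), IsTreeDecomp (ex n) D → n / 4 + 1 ≤ r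

/-- TT-LB2: simple properties of the example. -/
def S_lb2 : Prop := ∀ n : ℕ, 1 ≤ n → (ex n).Connected ∧ (ex n).CliqueFree 3 ∧
  Nat.card (ex n).edgeSet + 1 = n + n / 4

/-- TT-LB3: the drawing of the example. -/
def S_lb3 : Prop := ∀ n : ℕ, Pool.Agent.H239R2.Planar.HasStraightLineDrawing (ex n)

end Pool.Agent.H96.TT
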