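import Mathlib
import Pool.Agent.H96.TT.Stm

/-!
# Simple properties of the example (task TT-LB2, helper921)
-/

set_option autoImplicit false

namespace Pool.Agent.H96.TT

open SimpleGraph

/-- the smaller neighbour of `v` -/
def lb2_par (n v : ℕ) : ℕ := if 4 * (n / 4) ≤ v then 0 else if v % 4 = 0 then v - 2 else v - 1

theorem lb2_par_R {n v : ℕ} (h0 : 0 < v) : R n (lb2_par n v) v := by
  unfold R lb2_par
  split_ifs <;> omega

theorem lb2_par_lt {n v : ℕ} (h0 : 0 < v) : lb2_par n v < v := (lb2_par_R h0).1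

theorem lb2_cyc_R {n k : ℕ} (h : k < n / 4) : R n (4 * k) (4 * k + 3) := by
  unfold R
  omega

theorem lb2_R {n u v : ℕ} (h : R n u v) :
    u = lb2_par n v ∨ ∃ k, k < n / 4 ∧ u = 4 * k ∧ v = 4 * k + 3 := by
  unfold R at h
  obtain ⟨h1, ⟨h2, ⟨h3, h4 | h4⟩ | ⟨h3, h4⟩⟩ | ⟨h2, h3⟩⟩ := h
  · left
    unfold lb2_par
    rw [if_neg (by omega), if_neg (by omega)]
    omega
  · right
    exact ⟨u / 4, by omega, by omega, by omega⟩
  · left
    unfold lb2_par
    rw [if_neg (by omega), if_pos h4]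
    omega
  · left
    unfold lb2_par
    rw [if_pos h2]
    exact h3

theorem lb2_adj {n : ℕ} {a b : Fin n} : (ex n).Adj a b ↔ R n a b ∨ R n b a := by
  unfold ex
  rw [SimpleGraph.fromRel_adj]
  constructor
  · exact fun h => h.2
  · intro h
    refine ⟨?_, h⟩
    rintro rfl
    rcases h with h | h
    · exact lt_irrefl _ h.1
    · exact lt_irrefl _ h.1

theorem lb2_conn {n : ℕ} (hn : 1 ≤ n) : (ex n).Connected := by
  rw [SimpleGraph.connected_iff_exists_forall_reachable]
  refine ⟨⟨0, by omega⟩, ?_⟩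
  have key : ∀ k : ℕ, ∀ hk : k < n, (ex n).Reachable ⟨0, by omega⟩ ⟨k, hk⟩ := by
    intro k
    induction k using Nat.strong_induction_on with
    | _ k ih =>
      intro hk
      rcases Nat.eq_zero_or_pos k with h0 | h0
      · subst h0
        exact SimpleGraph.Reachable.refl _
      · have h1 := lb2_par_lt (n := n) h0
        refine (ih _ h1 (h1.trans hk)).trans (SimpleGraph.Adj.reachable ?_)
        rw [lb2_adj]
        exact Or.inl (lb2_par_R h0)
  intro w
  exact key w.1 w.2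

theorem lb2_tri {n a b c : ℕ} (h1 : R n a b) (h2 : R n a c) (h3 : R n b c) : False := by
  unfold R at h1 h2 h3
  omega

theorem lb2_free (n : ℕ) : (ex n).CliqueFree 3 := by
  intro s hs
  rw [SimpleGraph.is3Clique_iff] at hs
  obtain ⟨a, b, c, h1, h2, h3, -⟩ := hs
  rw [lb2_adj] at h1 h2 h3
  rcases h1 with h1 | h1 <;> rcases h2 with h2 | h2 <;> rcases h3 with h3 | h3
  · exact lb2_tri h1 h2 h3
  · exact lb2_tri h2 h1 h3
  · exact absurd (h1.1.trans h3.1) (not_lt.2 h2.1.le)
  · exact lb2_tri h2 h3 h1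
  · exact lb2_tri h1 h3 h2
  · exact absurd (h3.1.trans h1.1) (not_lt.2 h2.1.le)
  · exact lb2_tri h3 h1 h2
  · exact lb2_tri h3 h2 h1

/-- the edges -/
def lb2_e (n : ℕ) : Fin (n - 1) ⊕ Fin (n / 4) → Sym2 (Fin n)
  | Sum.inl k => s(⟨lb2_par n (k + 1), by
      have := lb2_par_lt (n := n) (v := k + 1) (by omega)
      have := k.2
      omega⟩, ⟨k + 1, by have := k.2; omega⟩)
  | Sum.inr k => s(⟨4 * k, by have := k.2; omega⟩, ⟨4 * k + 3, by have := k.2; omega⟩)

theorem lb2_inj (n : ℕ) : Function.Injective (lb2_e n) := by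
  rintro (⟨a, ha⟩ | ⟨a, ha⟩) (⟨b, hb⟩ | ⟨b, hb⟩) h
  · have h1 := lb2_par_lt (n := n) (v := a + 1) (by omega)
    have h2 := lb2_par_lt (n := n) (v := b + 1) (by omega)
    simp only [lb2_e, Sym2.eq_iff, Fin.mk.injEq] at h
    have : a = b := by omega
    subst this
    rfl
  · exfalso
    have h1 := lb2_par_lt (n := n) (v := a + 1) (by omega)
    simp only [lb2_e, Sym2.eq_iff, Fin.mk.injEq] at h
    have h2 : lb2_par n (a + 1) = 4 * b ∧ a + 1 = 4 * b + 3 := by omega
    unfold lb2_par at h2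
    split_ifs at h2 <;> omega
  · exfalso
    have h1 := lb2_par_lt (n := n) (v := b + 1) (by omega)
    simp only [lb2_e, Sym2.eq_iff, Fin.mk.injEq] at h
    have h2 : lb2_par n (b + 1) = 4 * a ∧ b + 1 = 4 * a + 3 := by omega
    unfold lb2_par at h2
    split_ifs at h2 <;> omega
  · simp only [lb2_e, Sym2.eq_iff, Fin.mk.injEq] at h
    have : a = b := by omega
    subst this
    rfl

theorem lb2_mem {n : ℕ} {a b : Fin n} (h : R n a b) : ∃ x, lb2_e n x = s(a, b) := by
  have h0 := h.1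
  rcases lb2_R h with h1 | ⟨k, hk, h1, h2⟩
  · refine ⟨Sum.inl ⟨b - 1, by omega⟩, ?_⟩
    have h2 : (b : ℕ) - 1 + 1 = b := by omega
    simp only [lb2_e, Sym2.eq_iff]
    left
    constructor
    · apply Fin.ext
      simp only
      rw [h2]
      exact h1.symm
    · apply Fin.ext
      exact h2
  · refine ⟨Sum.inr ⟨k, hk⟩, ?_⟩
    simp only [lb2_e, Sym2.eq_iff]
    left
    constructor
    · apply Fin.ext
      exact h1.symm
    · apply Fin.ext
      exact h2.symm

theorem lb2_range (n : ℕ) : Set.range (lb2_e n) = (ex n).edgeSet := by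
  ext e
  constructor
  · rintro ⟨(⟨a, ha⟩ | ⟨a, ha⟩), rfl⟩
    · simp only [lb2_e]
      rw [SimpleGraph.mem_edgeSet, lb2_adj]
      exact Or.inl (lb2_par_R (by omega))
    · simp only [lb2_e]
      rw [SimpleGraph.mem_edgeSet, lb2_adj]
      exact Or.inl (lb2_cyc_R ha)
  · induction e with
    | _ a b =>
      intro h
      rw [SimpleGraph.mem_edgeSet, lb2_adj] at h
      rcases h with h | h
      · exact lb2_mem h
      · rw [Sym2.eq_swap]
        exact lb2_mem h

theorem t_lb2 : S_lb2 := by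
  intro n hn
  refine ⟨lb2_conn hn, lb2_free n, ?_⟩
  rw [← lb2_range, Nat.card_range_of_injective (lb2_inj n), Nat.card_sum, Nat.card_eq_fintype_card,
    Nat.card_eq_fintype_card, Fintype.card_fin, Fintype.card_fin]
  omega

end Pool.Agent.H96.TT
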