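import Pool.Agent.H96.TT.Stm

/-!
# The straight-line drawing of the example
-/

set_option autoImplicit false

namespace Pool.Agent.H96.TT

open SimpleGraph

/-- Abscissa. -/
def lb3_X (n v : ℕ) : ℤ :=
  if v < 4 * (n / 4) then
    3 * ((v / 4 : ℕ) : ℤ) + (if v % 4 = 0 then 0 else if v % 4 = 2 then 2 else 1)
  else if v = 0 then 0 else -1

/-- Ordinate. -/
def lb3_Y (n v : ℕ) : ℤ :=
  if v < 4 * (n / 4) then
    (if v % 4 = 1 then 1 else if v % 4 = 3 then -1 else 0)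
  else if v = 0 then 0 else (v : ℤ) - 4 * ((n / 4 : ℕ) : ℤ)

theorem lb3_inj {n u v : ℕ} (hX : lb3_X n u = lb3_X n v) (hY : lb3_Y n u = lb3_Y n v) :
    u = v := by
  unfold lb3_X at hX
  unfold lb3_Y at hY
  split_ifs at hX hY <;> omega

/-- Edges from the left to the right. -/
def lb3_E (n l r : ℕ) : Prop := (R n l r ∨ R n r l) ∧ lb3_X n r = lb3_X n l + 1

theorem lb3_edge {n u v : ℕ} (h : R n u v) :
    lb3_X n v = lb3_X n u + 1 ∨ lb3_X n u = lb3_X n v + 1 := by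
  unfold R at h
  unfold lb3_X
  split_ifs <;> omega

theorem lb3_char1 {n l r : ℕ} (h : R n l r) (h2 : lb3_X n r = lb3_X n l + 1) :
    (lb3_X n l = -1 ∧ r = 0) ∨
      ∃ j : ℕ, (lb3_X n l = 3 * (j : ℤ) ∧ l = 4 * j) ∨
        (lb3_X n l = 3 * (j : ℤ) + 1 ∧ r = 4 * j + 2) ∨
        (lb3_X n l = 3 * (j : ℤ) + 2 ∧ l = 4 * j + 2) := by
  unfold R at h
  unfold lb3_X at h2
  right
  refine ⟨l / 4, ?_⟩
  unfold lb3_X
  split_ifs at h2 ⊢ <;> omega

theorem lb3_char2 {n l r : ℕ} (h : R n r l) (h2 : lb3_X n r = lb3_X n l + 1) :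
    (lb3_X n l = -1 ∧ r = 0) ∨
      ∃ j : ℕ, (lb3_X n l = 3 * (j : ℤ) ∧ l = 4 * j) ∨
        (lb3_X n l = 3 * (j : ℤ) + 1 ∧ r = 4 * j + 2) ∨
        (lb3_X n l = 3 * (j : ℤ) + 2 ∧ l = 4 * j + 2) := by
  unfold R at h
  unfold lb3_X at h2
  by_cases hr : 4 * (n / 4) ≤ l
  · left
    unfold lb3_X
    split_ifs at h2 ⊢ <;> omega
  · right
    refine ⟨l / 4, ?_⟩
    unfold lb3_X
    split_ifs at h2 ⊢ <;> omega

theorem lb3_same {n l r l' r' : ℕ} (h : lb3_E n l r) (h' : lb3_E n l' r')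
    (he : lb3_X n l = lb3_X n l') : l = l' ∨ r = r' := by
  have c1 := h.1.elim (fun a => lb3_char1 a h.2) (fun a => lb3_char2 a h.2)
  have c2 := h'.1.elim (fun a => lb3_char1 a h'.2) (fun a => lb3_char2 a h'.2)
  rw [← he] at c2
  generalize lb3_X n l = x at c1 c2
  rcases c1 with c1 | ⟨j, c1⟩ <;> rcases c2 with c2 | ⟨k, c2⟩ <;> omega

/-- Position. -/
noncomputable def lb3_p (n v : ℕ) : ℝ × ℝ := ((lb3_X n v : ℝ), (lb3_Y n v : ℝ))

theorem lb3_p_inj {n u v : ℕ} (h : lb3_p n u = lb3_p n v) : u = v := by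
  have h1 : (lb3_X n u : ℝ) = lb3_X n v := congrArg Prod.fst h
  have h2 : (lb3_Y n u : ℝ) = lb3_Y n v := congrArg Prod.snd h
  exact lb3_inj (by exact_mod_cast h1) (by exact_mod_cast h2)

theorem lb3_seg {P Q q : ℝ × ℝ} (h : q ∈ segment ℝ P Q) (hx : Q.1 = P.1 + 1) :
    P.1 ≤ q.1 ∧ q.1 ≤ P.1 + 1 ∧ q.2 = P.2 + (q.1 - P.1) * (Q.2 - P.2) := by
  obtain ⟨a, b, ha, hb, hab, rfl⟩ := h
  have ea : a = 1 - b := by linarith
  subst ea
  simp only [Prod.fst_add, Prod.smul_fst, Prod.snd_add, Prod.smul_snd, smul_eq_mul, hx]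
  refine ⟨by nlinarith, by nlinarith, by ring⟩

theorem lb3_segE {n l r : ℕ} {q : ℝ × ℝ} (h : q ∈ segment ℝ (lb3_p n l) (lb3_p n r))
    (hE : lb3_E n l r) : (lb3_X n l : ℝ) ≤ q.1 ∧ q.1 ≤ (lb3_X n l : ℝ) + 1 ∧
      q.2 = (lb3_Y n l : ℝ) + (q.1 - lb3_X n l) * ((lb3_Y n r : ℝ) - lb3_Y n l) := by
  have hx : (lb3_X n r : ℝ) = (lb3_X n l : ℝ) + 1 := by exact_mod_cast hE.2
  exact lb3_seg h hx

theorem lb3_left {n l r : ℕ} {q : ℝ × ℝ} (h : q ∈ segment ℝ (lb3_p n l) (lb3_p n r))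
    (hE : lb3_E n l r) (hq : q.1 = (lb3_X n l : ℝ)) : q = lb3_p n l := by
  obtain ⟨_, _, h3⟩ := lb3_segE h hE
  rw [hq] at h3
  exact Prod.ext hq (by rw [h3]; simp [lb3_p])

theorem lb3_right {n l r : ℕ} {q : ℝ × ℝ} (h : q ∈ segment ℝ (lb3_p n l) (lb3_p n r))
    (hE : lb3_E n l r) (hq : q.1 = (lb3_X n l : ℝ) + 1) : q = lb3_p n r := by
  have hx : (lb3_X n r : ℝ) = (lb3_X n l : ℝ) + 1 := by exact_mod_cast hE.2
  obtain ⟨_, _, h3⟩ := lb3_segE h hE
  rw [hq] at h3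
  exact Prod.ext (by rw [hq]; exact hx.symm) (by rw [h3]; simp [lb3_p])

theorem lb3_vertex {n l r w : ℕ} (h : lb3_p n w ∈ segment ℝ (lb3_p n l) (lb3_p n r))
    (hE : lb3_E n l r) : w = l ∨ w = r := by
  obtain ⟨h1, h2, _⟩ := lb3_segE h hE
  have h1 : (lb3_X n l : ℝ) ≤ (lb3_X n w : ℝ) := h1
  have h2 : (lb3_X n w : ℝ) ≤ (lb3_X n l : ℝ) + 1 := h2
  have h1' : lb3_X n l ≤ lb3_X n w := by exact_mod_cast h1
  have h2' : lb3_X n w ≤ lb3_X n l + 1 := by exact_mod_cast h2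
  have : lb3_X n w = lb3_X n l ∨ lb3_X n w = lb3_X n l + 1 := by omega
  rcases this with e | e
  · left
    exact lb3_p_inj (lb3_left h hE (by show (lb3_X n w : ℝ) = _; exact_mod_cast e))
  · right
    exact lb3_p_inj (lb3_right h hE (by show (lb3_X n w : ℝ) = _; exact_mod_cast e))

theorem lb3_two {n l r l' r' : ℕ} {q : ℝ × ℝ} (h : q ∈ segment ℝ (lb3_p n l) (lb3_p n r))
    (h' : q ∈ segment ℝ (lb3_p n l') (lb3_p n r')) (hE : lb3_E n l r) (hE' : lb3_E n l' r')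
    (hne : ¬ (l = l' ∧ r = r')) :
    ∃ w, (w = l ∨ w = r) ∧ (w = l' ∨ w = r') ∧ q = lb3_p n w := by
  obtain ⟨h1, h2, h3⟩ := lb3_segE h hE
  obtain ⟨k1, k2, k3⟩ := lb3_segE h' hE'
  rcases lt_trichotomy (lb3_X n l) (lb3_X n l') with hlt | heq | hgt
  · have hle : lb3_X n l + 1 ≤ lb3_X n l' := hlt
    have hle' : (lb3_X n l : ℝ) + 1 ≤ lb3_X n l' := by exact_mod_cast hle
    have e1 : q = lb3_p n r := lb3_right h hE (by linarith)
    have e2 : q = lb3_p n l' := lb3_left h' hE' (by linarith)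
    have e3 : r = l' := lb3_p_inj (e1.symm.trans e2)
    exact ⟨r, Or.inr rfl, Or.inl e3, e1⟩
  · have hc : (lb3_X n l : ℝ) = lb3_X n l' := by exact_mod_cast heq
    rw [← hc] at k3
    have hX : lb3_X n r = lb3_X n r' := by rw [hE.2, hE'.2, heq]
    rcases lb3_same hE hE' heq with e | e
    · subst e
      have hr : r ≠ r' := fun e' => hne ⟨rfl, e'⟩
      have hY : lb3_Y n r ≠ lb3_Y n r' := fun e' => hr (lb3_inj hX e')
      have hY' : (lb3_Y n r : ℝ) - lb3_Y n r' ≠ 0 := by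
        rw [sub_ne_zero]
        exact_mod_cast hY
      have hz : (q.1 - lb3_X n l) * ((lb3_Y n r : ℝ) - lb3_Y n r') = 0 := by linarith
      rcases mul_eq_zero.1 hz with hz | hz
      · exact ⟨l, Or.inl rfl, Or.inl rfl, lb3_left h hE (by linarith)⟩
      · exact absurd hz hY'
    · subst e
      have hl : l ≠ l' := fun e' => hne ⟨e', rfl⟩
      have hY : lb3_Y n l ≠ lb3_Y n l' := fun e' => hl (lb3_inj heq e')
      have hY' : (lb3_Y n l : ℝ) - lb3_Y n l' ≠ 0 := by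
        rw [sub_ne_zero]
        exact_mod_cast hY
      have hz : (1 - (q.1 - lb3_X n l)) * ((lb3_Y n l : ℝ) - lb3_Y n l') = 0 := by
        linarith
      rcases mul_eq_zero.1 hz with hz | hz
      · exact ⟨r, Or.inr rfl, Or.inr rfl, lb3_right h hE (by linarith)⟩
      · exact absurd hz hY'
  · have hle : lb3_X n l' + 1 ≤ lb3_X n l := hgt
    have hle' : (lb3_X n l' : ℝ) + 1 ≤ lb3_X n l := by exact_mod_cast hle
    have e1 : q = lb3_p n r' := lb3_right h' hE' (by linarith)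
    have e2 : q = lb3_p n l := lb3_left h hE (by linarith)
    have e3 : l = r' := lb3_p_inj (e2.symm.trans e1)
    exact ⟨l, Or.inl rfl, Or.inr e3, e2⟩

theorem lb3_orient {n : ℕ} {u v : Fin n} (h : (ex n).Adj u v) :
    ∃ l r : ℕ, lb3_E n l r ∧ ((l = u ∧ r = v) ∨ (l = v ∧ r = u)) ∧
      segment ℝ (lb3_p n u) (lb3_p n v) = segment ℝ (lb3_p n l) (lb3_p n r) := by
  have h' : R n u v ∨ R n v u := by
    have := (SimpleGraph.fromRel_adj (fun u v : Fin n => R n u v) u v).1 h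
    exact this.2
  have hX : lb3_X n v = lb3_X n u + 1 ∨ lb3_X n u = lb3_X n v + 1 := by
    rcases h' with h' | h'
    · exact lb3_edge h'
    · exact (lb3_edge h').symm
  rcases hX with hX | hX
  · exact ⟨u, v, ⟨h', hX⟩, Or.inl ⟨rfl, rfl⟩, rfl⟩
  · exact ⟨v, u, ⟨h'.symm, hX⟩, Or.inr ⟨rfl, rfl⟩, segment_symm _ _ _⟩

theorem t_lb3 : S_lb3 := by
  intro n
  refine ⟨fun v => lb3_p n v, ?_, ?_, ?_⟩
  · intro u v h
    exact Fin.ext (lb3_p_inj h)
  · intro u v w h hw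
    obtain ⟨l, r, hE, hlr, hs⟩ := lb3_orient h
    simp only [hs] at hw
    have := lb3_vertex hw hE
    rcases hlr with ⟨rfl, rfl⟩ | ⟨rfl, rfl⟩
    · rcases this with e | e
      · exact Or.inl (Fin.ext e)
      · exact Or.inr (Fin.ext e)
    · rcases this with e | e
      · exact Or.inr (Fin.ext e)
      · exact Or.inl (Fin.ext e)
  · intro u v x y h h' hne q hq hq'
    obtain ⟨l, r, hE, hlr, hs⟩ := lb3_orient h
    obtain ⟨l', r', hE', hlr', hs'⟩ := lb3_orient h'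
    simp only [hs] at hq
    simp only [hs'] at hq'
    have hne' : ¬ (l = l' ∧ r = r') := by
      rintro ⟨e1, e2⟩
      apply hne
      rw [Sym2.eq_iff]
      rcases hlr with ⟨a, b⟩ | ⟨a, b⟩ <;> rcases hlr' with ⟨c, d⟩ | ⟨c, d⟩
      · exact Or.inl ⟨Fin.ext (by omega), Fin.ext (by omega)⟩
      · exact Or.inr ⟨Fin.ext (by omega), Fin.ext (by omega)⟩
      · exact Or.inr ⟨Fin.ext (by omega), Fin.ext (by omega)⟩
      · exact Or.inl ⟨Fin.ext (by omega), Fin.ext (by omega)⟩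
    obtain ⟨w, hw1, hw2, hw3⟩ := lb3_two hq hq' hE hE' hne'
    have hwn : w < n := by
      have := u.isLt
      have := v.isLt
      omega
    refine ⟨⟨w, hwn⟩, ?_, ?_, hw3⟩
    · have : w = (u : ℕ) ∨ w = (v : ℕ) := by omega
      rcases this with e | e
      · exact Or.inl (Fin.ext e)
      · exact Or.inr (Fin.ext e)
    · have : w = (x : ℕ) ∨ w = (y : ℕ) := by omega
      rcases this with e | e
      · exact Or.inl (Fin.ext e)
      · exact Or.inr (Fin.ext e)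

end Pool.Agent.H96.TT
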